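import Mathlib

/-!
# Exponential growth of the minority: the abstract form
-/

set_option autoImplicit false

open Finset

namespace Run7.h654.EACut

lemma ioo_step {z : ℤ} {j : ℕ} (hj : 1 ≤ j) (a : ℤ → ℝ) :
    ∑ n ∈ Ioo (z - (j + 1 : ℕ)) (z + (j + 1 : ℕ)), a n =
      a (z - j) + (a (z + j) + ∑ n ∈ Ioo (z - j) (z + j), a n) := by
  have h : Ioo (z - (j + 1 : ℕ)) (z + (j + 1 : ℕ)) =
      insert (z - (j : ℤ)) (insert (z + (j : ℤ)) (Ioo (z - (j : ℤ)) (z + j))) := by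
    ext n
    simp only [Finset.mem_insert, Finset.mem_Ioo]
    push_cast
    omega
  rw [h, Finset.sum_insert, Finset.sum_insert]
  · simp
  · rw [Finset.mem_insert, Finset.mem_Ioo]
    omega

/-- growth between two columns with a small minority of the same sign -/
lemma core {Vc κ κ2 ε : ℝ} (hV : 0 < Vc) (hκ : 0 < κ) (hκ2 : 0 < κ2)
    (hε : ε * (2 + κ2) ≤ κ2 / 4) {b a : ℤ → ℝ} {h1 h2 : ℤ}
    (hb : ∀ n, b n ≤ Vc) (ha : ∀ n, a n = min (b n) (Vc - b n))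
    (ha1 : ∀ n, h1 ≤ n → n ≤ h2 → 1 ≤ a n)
    (hs : ∀ u v, h1 ≤ u → u < v → v ≤ h2 → κ * ∑ n ∈ Ioo u v, a n ≤ b u + b v)
    (hv : ∀ n, h1 ≤ n → n ≤ h2 → κ2 * (b n - b h1) ≤ b h1 + b h2)
    (q1 : b h1 ≤ ε * Vc) (q2 : b h2 ≤ ε * Vc)
    (J : ℕ) (hJ : 2 * Vc < κ * (1 + κ) ^ J) (hD : h1 + (2 * J + 4) ≤ h2) : False := by
  have hab : ∀ n, h1 ≤ n → n ≤ h2 → a n = b n := by
    intro n e1 e2
    have e3 := hv n e1 e2
    have e4 : κ2 * b n ≤ κ2 * (Vc / 4) := by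
      have e5 : κ2 * b h1 ≤ κ2 * (ε * Vc) := mul_le_mul_of_nonneg_left q1 hκ2.le
      have e6 : (ε * (2 + κ2)) * Vc ≤ κ2 / 4 * Vc := mul_le_mul_of_nonneg_right hε hV.le
      nlinarith
    have e5 : b n ≤ Vc / 4 := le_of_mul_le_mul_left e4 hκ2
    rw [ha n, min_eq_left]
    linarith
  set z : ℤ := h1 + J + 2 with hz
  have hT : ∀ j : ℕ, j ≤ J → (1 + κ) ^ j ≤ ∑ n ∈ Ioo (z - (j + 1 : ℕ)) (z + (j + 1 : ℕ)), a n := by
    intro j
    induction j with
    | zero =>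
      intro _
      have h : Ioo (z - ((0 + 1 : ℕ) : ℤ)) (z + ((0 + 1 : ℕ) : ℤ)) = {z} := by
        ext n
        simp only [Finset.mem_Ioo, Finset.mem_singleton]
        push_cast
        omega
      rw [h, Finset.sum_singleton, pow_zero]
      exact ha1 z (by omega) (by omega)
    | succ j ih =>
      intro hj
      have e1 := ih (by omega)
      rw [ioo_step (by omega : 1 ≤ j + 1)]
      have e2 := hs (z - (j + 1 : ℕ)) (z + (j + 1 : ℕ)) (by push_cast; omega)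
        (by push_cast; omega) (by push_cast; omega)
      rw [← hab _ (by push_cast; omega) (by push_cast; omega),
        ← hab _ (by push_cast; omega) (by push_cast; omega)] at e2
      have e3 : (1 + κ) ^ (j + 1) = (1 + κ) * (1 + κ) ^ j := by ring
      rw [e3]
      have e4 := mul_le_mul_of_nonneg_left e1 (show 0 ≤ 1 + κ by linarith)
      linarith
  have e1 := hT J le_rfl
  have e2 := hs (z - (J + 1 : ℕ)) (z + (J + 1 : ℕ)) (by push_cast; omega)
    (by push_cast; omega) (by push_cast; omega)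
  have e3 := mul_le_mul_of_nonneg_left e1 hκ.le
  have e4 := hb (z - (J + 1 : ℕ))
  have e5 := hb (z + (J + 1 : ℕ))
  linarith

theorem growth {Vc κ κ2 ε : ℝ} (hV : 0 < Vc) (hκ : 0 < κ) (hκ2 : 0 < κ2)
    (hε : ε * (2 + κ2) ≤ κ2 / 4) {bp bm a : ℤ → ℝ} {p q : ℤ}
    (hsum : ∀ n, bp n + bm n = Vc) (hbp : ∀ n, 0 ≤ bp n) (hbm : ∀ n, 0 ≤ bm n)
    (ha : ∀ n, a n = min (bp n) (bm n))
    (ha1 : ∀ n, p ≤ n → n ≤ q → 1 ≤ a n)
    (hsp : ∀ u v, p ≤ u → u < v → v ≤ q → κ * ∑ n ∈ Ioo u v, a n ≤ bp u + bp v)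
    (hsm : ∀ u v, p ≤ u → u < v → v ≤ q → κ * ∑ n ∈ Ioo u v, a n ≤ bm u + bm v)
    (hvp : ∀ u n v, p ≤ u → u ≤ n → n ≤ v → v ≤ q → u < v → κ2 * (bp n - bp u) ≤ bp u + bp v)
    (hvm : ∀ u n v, p ≤ u → u ≤ n → n ≤ v → v ≤ q → u < v → κ2 * (bm n - bm u) ≤ bm u + bm v)
    (w0 J : ℕ) (hw0 : 2 < κ * ε * w0) (hJ : 2 * Vc < κ * (1 + κ) ^ J) :
    q - p ≤ 3 * w0 + 4 * J + 10 := by
  by_contra hcon
  push Not at hcon
  have hle : ∀ n, bp n ≤ Vc := fun n => by linarith [hsum n, hbm n]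
  have hle' : ∀ n, bm n ≤ Vc := fun n => by linarith [hsum n, hbp n]
  have hapos : ∀ n, 0 ≤ a n := fun n => by rw [ha n]; exact le_min (hbp n) (hbm n)
  have quiet : ∀ u : ℤ, p ≤ u → u + w0 < q → ∃ n, u < n ∧ n ≤ u + w0 ∧ a n ≤ ε * Vc := by
    intro u h1 h2
    by_contra hno
    push Not at hno
    have e1 : ∑ n ∈ Ioc u (u + w0), ε * Vc ≤ ∑ n ∈ Ioc u (u + w0), a n :=
      Finset.sum_le_sum fun n hn => by
        rw [Finset.mem_Ioc] at hn
        exact (hno n hn.1 hn.2).le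
    have e2 : ∑ n ∈ Ioc u (u + w0), a n ≤ ∑ n ∈ Ioo p q, a n :=
      Finset.sum_le_sum_of_subset_of_nonneg (fun n hn => by
        rw [Finset.mem_Ioc] at hn
        rw [Finset.mem_Ioo]
        omega) fun n _ _ => hapos n
    rw [Finset.sum_const, Int.card_Ioc, nsmul_eq_mul] at e1
    have e3 : (((u + w0 - u).toNat : ℕ) : ℝ) = w0 := by
      have : (u + (w0 : ℤ) - u).toNat = w0 := by omega
      rw [this]
    rw [e3] at e1
    have e4 := hsp p q le_rfl (by omega) le_rfl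
    have e5 := mul_le_mul_of_nonneg_left (e1.trans e2) hκ.le
    have e6 := hle p
    have e7 := hle q
    have e8 : κ * ε * w0 * Vc ≤ 2 * Vc := by nlinarith
    have e9 : 2 * Vc < κ * ε * w0 * Vc := mul_lt_mul_of_pos_right hw0 hV
    linarith
  obtain ⟨A, A1, A2, A3⟩ := quiet p le_rfl (by omega)
  obtain ⟨B, B1, B2, B3⟩ := quiet (p + w0 + (2 * J + 4)) (by omega) (by omega)
  obtain ⟨C, C1, C2, C3⟩ := quiet (p + 2 * w0 + 2 * (2 * J + 4)) (by omega) (by omega)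
  have hAB : A + (2 * J + 4) ≤ B := by omega
  have hBC : B + (2 * J + 4) ≤ C := by omega
  have hAC : A + (2 * J + 4) ≤ C := by omega
  have hor : ∀ n, a n ≤ ε * Vc → bp n ≤ ε * Vc ∨ bm n ≤ ε * Vc := by
    intro n hn
    rw [ha n] at hn
    exact min_le_iff.1 hn
  have hap : ∀ n, a n = min (bp n) (Vc - bp n) := fun n => by
    rw [ha n]; congr 1; linarith [hsum n]
  have ham : ∀ n, a n = min (bm n) (Vc - bm n) := fun n => by
    rw [ha n, min_comm]; congr 1; linarith [hsum n]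
  have fp : ∀ u v, p ≤ u → v ≤ q → u + (2 * J + 4) ≤ v → bp u ≤ ε * Vc → bp v ≤ ε * Vc → False :=
    fun u v h1 h2 h3 h4 h5 => core hV hκ hκ2 hε hle hap
      (fun n e1 e2 => ha1 n (by omega) (by omega))
      (fun u' v' e1 e2 e3 => hsp u' v' (by omega) e2 (by omega))
      (fun n e1 e2 => hvp u n v h1 e1 e2 h2 (by omega)) h4 h5 J hJ h3
  have fm : ∀ u v, p ≤ u → v ≤ q → u + (2 * J + 4) ≤ v → bm u ≤ ε * Vc → bm v ≤ ε * Vc → False :=
    fun u v h1 h2 h3 h4 h5 => core hV hκ hκ2 hε hle' ham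
      (fun n e1 e2 => ha1 n (by omega) (by omega))
      (fun u' v' e1 e2 e3 => hsm u' v' (by omega) e2 (by omega))
      (fun n e1 e2 => hvm u n v h1 e1 e2 h2 (by omega)) h4 h5 J hJ h3
  rcases hor A A3 with a1 | a1 <;> rcases hor B B3 with b1 | b1 <;>
    rcases hor C C3 with c1 | c1
  · exact fp A B (by omega) (by omega) hAB a1 b1
  · exact fp A B (by omega) (by omega) hAB a1 b1
  · exact fp A C (by omega) (by omega) hAC a1 c1
  · exact fm B C (by omega) (by omega) hBC b1 c1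
  · exact fp B C (by omega) (by omega) hBC b1 c1
  · exact fm A C (by omega) (by omega) hAC a1 c1
  · exact fm A B (by omega) (by omega) hAB a1 b1
  · exact fm A B (by omega) (by omega) hAB a1 b1

end Run7.h654.EACut
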