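import Pool.Agent.Run7.h654.EACut.Abs

/-!
# Polynomial growth of the energy of the minority: the abstract form
-/

set_option autoImplicit false

open Finset

namespace Run7.h654.EACut

lemma pow_diff {x : ℝ} (hx : 0 ≤ x) (n : ℕ) :
    (x + 1) ^ (n + 1) ≤ x ^ (n + 1) + ((n : ℝ) + 1) * (x + 1) ^ n := by
  induction n with
  | zero => simp
  | succ n ih =>
    have h1 : (x + 1) ^ (n + 1 + 1) = x * (x + 1) ^ (n + 1) + (x + 1) ^ (n + 1) := by ring
    have h2 : x * (x + 1) ^ (n + 1) ≤ x * (x ^ (n + 1) + ((n : ℝ) + 1) * (x + 1) ^ n) :=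
      mul_le_mul_of_nonneg_left ih hx
    have h3 : x * (((n : ℝ) + 1) * (x + 1) ^ n) ≤ ((n : ℝ) + 1) * (x + 1) ^ (n + 1) := by
      have e1 : ((n : ℝ) + 1) * (x + 1) ^ (n + 1) =
        x * (((n : ℝ) + 1) * (x + 1) ^ n) + ((n : ℝ) + 1) * (x + 1) ^ n := by ring
      have e2 : 0 ≤ ((n : ℝ) + 1) * (x + 1) ^ n := by positivity
      linarith
    rw [h1]
    push_cast
    have h4 : x * (x ^ (n + 1) + ((n : ℝ) + 1) * (x + 1) ^ n) =
      x ^ (n + 1 + 1) + x * (((n : ℝ) + 1) * (x + 1) ^ n) := by ring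
    rw [h4] at h2
    linarith

/-- one step of the growth -/
lemma step_growth {K : ℕ} {G κ2 c U d1 d2 a1 a2 t : ℝ} (hG : 0 < G) (hκ2 : 0 < κ2) (hκ2l : κ2 ≤ 1)
    (hc : 0 < c) (hcG : c * ((K + 1) * 2 ^ (K + 1) * G) ≤ κ2)
    (ht : 1 ≤ t) (hU : (c * t) ^ (K + 1) ≤ U) (h : κ2 * U ≤ a1 + a2) (hd1 : 0 ≤ d1) (hd2 : 0 ≤ d2)
    (i1 : a1 ^ K ≤ (G * d1) ^ (K + 1)) (i2 : a2 ^ K ≤ (G * d2) ^ (K + 1)) :
    (c * (t + 1)) ^ (K + 1) ≤ U + (d1 + d2) := by
  set E : ℝ := κ2 / 2 * c ^ K / G with hE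
  have hEp : 0 < E := by positivity
  have hU0 : 0 < U := lt_of_lt_of_le (by positivity) hU
  -- `d1 + d2` is large
  have key : ∀ a d : ℝ, κ2 * U / 2 ≤ a → 0 ≤ d → a ^ K ≤ (G * d) ^ (K + 1) → E * t ^ K ≤ d := by
    intro a d e1 e2 e3
    have e4 : (κ2 / 2 * (c * t) ^ (K + 1)) ^ K ≤ a ^ K := by
      apply pow_le_pow_left₀ (by positivity)
      refine le_trans ?_ e1
      have := mul_le_mul_of_nonneg_left hU (show 0 ≤ κ2 / 2 by positivity)
      linarith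
    have e5 : (G * (E * t ^ K)) ^ (K + 1) ≤ (κ2 / 2 * (c * t) ^ (K + 1)) ^ K := by
      have f1 : G * (E * t ^ K) = κ2 / 2 * (c * t) ^ K := by
        rw [hE, mul_pow]; field_simp
      rw [f1]
      have f2 : (κ2 / 2 * (c * t) ^ K) ^ (K + 1) = (κ2 / 2) * ((κ2 / 2) ^ K *
        ((c * t) ^ (K + 1)) ^ K) := by
        rw [mul_pow, pow_succ (κ2 / 2) K, ← pow_mul, ← pow_mul, mul_comm (K + 1) K]
        ring
      rw [f2, mul_pow (κ2 / 2) ((c * t) ^ (K + 1)) K]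
      have f3 : 0 ≤ (κ2 / 2) ^ K * ((c * t) ^ (K + 1)) ^ K := by positivity
      have f4 : κ2 / 2 ≤ 1 := by linarith
      exact mul_le_of_le_one_left f3 f4
    have e6 : (G * (E * t ^ K)) ^ (K + 1) ≤ (G * d) ^ (K + 1) := e5.trans (e4.trans e3)
    have e7 : G * (E * t ^ K) ≤ G * d :=
      (pow_le_pow_iff_left₀ (by positivity) (by positivity) (by omega)).1 e6
    exact le_of_mul_le_mul_left e7 hG
  have hd : E * t ^ K ≤ d1 + d2 := by
    rcases le_total (κ2 * U / 2) a1 with h1 | h1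
    · have := key a1 d1 h1 hd1 i1
      linarith
    · have h2 : κ2 * U / 2 ≤ a2 := by linarith
      have := key a2 d2 h2 hd2 i2
      linarith
  have h3 : (c * (t + 1)) ^ (K + 1) ≤ (c * t) ^ (K + 1) + E * t ^ K := by
    have e1 := pow_diff (show 0 ≤ t by linarith) K
    have e2 : (t + 1) ^ K ≤ (2 * t) ^ K := pow_le_pow_left₀ (by linarith) (by linarith) K
    rw [mul_pow, mul_pow]
    have e3 : c ^ (K + 1) * (t + 1) ^ (K + 1) ≤
        c ^ (K + 1) * (t ^ (K + 1) + ((K : ℝ) + 1) * (2 * t) ^ K) := by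
      apply mul_le_mul_of_nonneg_left _ (by positivity)
      have := mul_le_mul_of_nonneg_left e2 (show (0 : ℝ) ≤ (K : ℝ) + 1 by positivity)
      linarith
    refine e3.trans ?_
    rw [mul_add]
    have e4 : c ^ (K + 1) * (((K : ℝ) + 1) * (2 * t) ^ K) =
        (c * ((K + 1) * 2 ^ (K + 1) * G)) * (c ^ K * t ^ K / (2 * G)) := by
      rw [mul_pow]
      field_simp
      ring
    have e5 : E * t ^ K = κ2 * (c ^ K * t ^ K / (2 * G)) := by
      rw [hE]; field_simp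
    rw [e4, e5]
    have e6 := mul_le_mul_of_nonneg_right hcG (show 0 ≤ c ^ K * t ^ K / (2 * G) by positivity)
    linarith
  linarith

/-- growth between two columns with a small minority of the same sign -/
lemma core2 {Vc κ2 ε : ℝ} (hV : 0 < Vc) (hκ2 : 0 < κ2) (hκ2l : κ2 ≤ 1)
    (hε : ε * (2 + κ2) ≤ κ2 / 4) {b a d : ℤ → ℝ} {h1 h2 : ℤ}
    (hb : ∀ n, b n ≤ Vc) (ha : ∀ n, a n = min (b n) (Vc - b n))
    (ha1 : ∀ n, h1 ≤ n → n ≤ h2 → 1 ≤ a n)
    (hs : ∀ u v, h1 ≤ u → u < v → v ≤ h2 → κ2 * ∑ n ∈ Ioo u v, d n ≤ b u + b v)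
    (hd0 : ∀ n, 0 ≤ d n)
    {K : ℕ} {G c : ℝ} (hG : 0 < G) (hc : 0 < c) (hc1 : c ≤ 1)
    (hcG : c * ((K + 1) * 2 ^ (K + 1) * G) ≤ κ2)
    (hd : ∀ n, h1 ≤ n → n ≤ h2 → a n ^ K ≤ (G * d n) ^ (K + 1))
    (hv : ∀ n, h1 ≤ n → n ≤ h2 → κ2 * (b n - b h1) ≤ b h1 + b h2)
    (q1 : b h1 ≤ ε * Vc) (q2 : b h2 ≤ ε * Vc)
    (T : ℕ) (hT : 2 * Vc < κ2 * (c * (T + 1)) ^ (K + 1)) (hD : h1 + (2 * T + 4) ≤ h2) : False := by
  have hab : ∀ n, h1 ≤ n → n ≤ h2 → a n = b n := by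
    intro n e1 e2
    have e3 := hv n e1 e2
    have e4 : κ2 * b n ≤ κ2 * (Vc / 4) := by
      have e5 : κ2 * b h1 ≤ κ2 * (ε * Vc) := mul_le_mul_of_nonneg_left q1 hκ2.le
      have e6 : (ε * (2 + κ2)) * Vc ≤ κ2 / 4 * Vc := mul_le_mul_of_nonneg_right hε hV.le
      nlinarith
    have e5 : b n ≤ Vc / 4 := le_of_mul_le_mul_left e4 hκ2
    rw [ha n, min_eq_left]
    linarith
  set z : ℤ := h1 + T + 2 with hz
  have hind : ∀ j : ℕ, j ≤ T → (c * ((j : ℝ) + 1)) ^ (K + 1) ≤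
      ∑ n ∈ Ioo (z - (j + 1 : ℕ)) (z + (j + 1 : ℕ)), d n := by
    intro j
    induction j with
    | zero =>
      intro _
      have h : Ioo (z - ((0 + 1 : ℕ) : ℤ)) (z + ((0 + 1 : ℕ) : ℤ)) = {z} := by
        ext n
        simp only [Finset.mem_Ioo, Finset.mem_singleton]
        push_cast
        omega
      rw [h, Finset.sum_singleton]
      have e1 := hd z (by omega) (by omega)
      have e2 : 1 ≤ a z ^ K := one_le_pow₀ (ha1 z (by omega) (by omega))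
      have e3 : (1 : ℝ) ≤ G * d z := by
        by_contra hcon
        push Not at hcon
        have : (G * d z) ^ (K + 1) < 1 :=
          pow_lt_one₀ (mul_nonneg hG.le (hd0 z)) hcon (by omega)
        linarith
      have hk1 : (1 : ℝ) ≤ ((K : ℝ) + 1) * 2 ^ (K + 1) := by
        have f1 : (1 : ℝ) ≤ (K : ℝ) + 1 := by
          have : (0 : ℝ) ≤ K := Nat.cast_nonneg K
          linarith
        exact one_le_mul_of_one_le_of_one_le f1 (one_le_pow₀ (by norm_num))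
      have e4 : c * G ≤ 1 := by
        have f1 : c * G ≤ c * ((K + 1) * 2 ^ (K + 1) * G) := by
          apply mul_le_mul_of_nonneg_left _ hc.le
          exact le_mul_of_one_le_left hG.le hk1
        linarith
      -- `c ≤ d z`, and `c ≤ 1` unless `d z ≥ 1`
      have e5 : c ≤ d z := by
        have : G * c ≤ G * d z := by linarith
        exact le_of_mul_le_mul_left this hG
      have e6 : (c * ((0 : ℕ) + 1 : ℝ)) ^ (K + 1) ≤ c := by
        push_cast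
        rw [zero_add, mul_one, pow_succ]
        have f1 : c ≤ 1 := hc1
        exact mul_le_of_le_one_left hc.le (pow_le_one₀ hc.le f1)
      exact e6.trans e5
    | succ j ih =>
      intro hj
      have e1 := ih (by omega)
      rw [ioo_step (by omega : 1 ≤ j + 1)]
      have e2 := hs (z - (j + 1 : ℕ)) (z + (j + 1 : ℕ)) (by push_cast; omega)
        (by push_cast; omega) (by push_cast; omega)
      rw [← hab _ (by push_cast; omega) (by push_cast; omega),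
        ← hab _ (by push_cast; omega) (by push_cast; omega)] at e2
      have e3 := step_growth (t := (j : ℝ) + 1) hG hκ2 hκ2l hc hcG
        (by have : (0 : ℝ) ≤ j := Nat.cast_nonneg j
            linarith) e1 e2 (hd0 _) (hd0 _)
        (hd _ (by push_cast; omega) (by push_cast; omega))
        (hd _ (by push_cast; omega) (by push_cast; omega))
      push_cast at e3 ⊢
      linarith
  have e1 := hind T le_rfl
  have e2 := hs (z - (T + 1 : ℕ)) (z + (T + 1 : ℕ)) (by push_cast; omega)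
    (by push_cast; omega) (by push_cast; omega)
  have e3 := mul_le_mul_of_nonneg_left e1 hκ2.le
  have e4 := hb (z - (T + 1 : ℕ))
  have e5 := hb (z + (T + 1 : ℕ))
  linarith

theorem growth2 {Vc κ κ2 ε : ℝ} (hV : 0 < Vc) (hκ : 0 < κ) (hκ2 : 0 < κ2) (hκ2l : κ2 ≤ 1)
    (hε : ε * (2 + κ2) ≤ κ2 / 4) {bp bm a d : ℤ → ℝ} {p q : ℤ}
    (hsum : ∀ n, bp n + bm n = Vc) (hbp : ∀ n, 0 ≤ bp n) (hbm : ∀ n, 0 ≤ bm n)
    (ha : ∀ n, a n = min (bp n) (bm n))
    (ha1 : ∀ n, p ≤ n → n ≤ q → 1 ≤ a n)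
    (hsp : ∀ u v, p ≤ u → u < v → v ≤ q → κ * ∑ n ∈ Ioo u v, a n ≤ bp u + bp v)
    (htp : ∀ u v, p ≤ u → u < v → v ≤ q → κ2 * ∑ n ∈ Ioo u v, d n ≤ bp u + bp v)
    (htm : ∀ u v, p ≤ u → u < v → v ≤ q → κ2 * ∑ n ∈ Ioo u v, d n ≤ bm u + bm v)
    (hvp : ∀ u n v, p ≤ u → u ≤ n → n ≤ v → v ≤ q → u < v → κ2 * (bp n - bp u) ≤ bp u + bp v)
    (hvm : ∀ u n v, p ≤ u → u ≤ n → n ≤ v → v ≤ q → u < v → κ2 * (bm n - bm u) ≤ bm u + bm v)
    (hd0 : ∀ n, 0 ≤ d n) {K : ℕ} {G c : ℝ} (hG : 0 < G) (hc : 0 < c) (hc1 : c ≤ 1)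
    (hcG : c * ((K + 1) * 2 ^ (K + 1) * G) ≤ κ2)
    (hd : ∀ n, p ≤ n → n ≤ q → a n ^ K ≤ (G * d n) ^ (K + 1))
    (w0 J : ℕ) (hw0 : 2 < κ * ε * w0) (hJ : 2 * Vc < κ2 * (c * (J + 1)) ^ (K + 1)) :
    q - p ≤ 3 * w0 + 4 * J + 10 := by
  by_contra hcon
  push Not at hcon
  have hle : ∀ n, bp n ≤ Vc := fun n => by linarith [hsum n, hbm n]
  have hle' : ∀ n, bm n ≤ Vc := fun n => by linarith [hsum n, hbp n]
  have hapos : ∀ n, 0 ≤ a n := fun n => by rw [ha n]; exact le_min (hbp n) (hbm n)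
  have quiet : ∀ u : ℤ, p ≤ u → u + w0 < q → ∃ n, u < n ∧ n ≤ u + w0 ∧ a n ≤ ε * Vc := by
    intro u h1 h2
    by_contra hno
    push Not at hno
    have e1 : ∑ n ∈ Ioc u (u + w0), ε * Vc ≤ ∑ n ∈ Ioc u (u + w0), a n :=
      Finset.sum_le_sum fun n hn => by
        rw [Finset.mem_Ioc] at hn
        exact (hno n hn.1 hn.2).le
    have e2 : ∑ n ∈ Ioc u (u + w0), a n ≤ ∑ n ∈ Ioo p q, a n :=
      Finset.sum_le_sum_of_subset_of_nonneg (fun n hn => by
        rw [Finset.mem_Ioc] at hn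
        rw [Finset.mem_Ioo]
        omega) fun n _ _ => hapos n
    rw [Finset.sum_const, Int.card_Ioc, nsmul_eq_mul] at e1
    have e3 : (((u + w0 - u).toNat : ℕ) : ℝ) = w0 := by
      have : (u + (w0 : ℤ) - u).toNat = w0 := by omega
      rw [this]
    rw [e3] at e1
    have e4 := hsp p q le_rfl (by omega) le_rfl
    have e5 := mul_le_mul_of_nonneg_left (e1.trans e2) hκ.le
    have e6 := hle p
    have e7 := hle q
    have e8 : κ * ε * w0 * Vc ≤ 2 * Vc := by nlinarith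
    have e9 : 2 * Vc < κ * ε * w0 * Vc := mul_lt_mul_of_pos_right hw0 hV
    linarith
  obtain ⟨A, A1, A2, A3⟩ := quiet p le_rfl (by omega)
  obtain ⟨B, B1, B2, B3⟩ := quiet (p + w0 + (2 * J + 4)) (by omega) (by omega)
  obtain ⟨C, C1, C2, C3⟩ := quiet (p + 2 * w0 + 2 * (2 * J + 4)) (by omega) (by omega)
  have hAB : A + (2 * J + 4) ≤ B := by omega
  have hBC : B + (2 * J + 4) ≤ C := by omega
  have hAC : A + (2 * J + 4) ≤ C := by omega
  have hor : ∀ n, a n ≤ ε * Vc → bp n ≤ ε * Vc ∨ bm n ≤ ε * Vc := by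
    intro n hn
    rw [ha n] at hn
    exact min_le_iff.1 hn
  have hap : ∀ n, a n = min (bp n) (Vc - bp n) := fun n => by
    rw [ha n]; congr 1; linarith [hsum n]
  have ham : ∀ n, a n = min (bm n) (Vc - bm n) := fun n => by
    rw [ha n, min_comm]; congr 1; linarith [hsum n]
  have fp : ∀ u v, p ≤ u → v ≤ q → u + (2 * J + 4) ≤ v → bp u ≤ ε * Vc → bp v ≤ ε * Vc → False :=
    fun u v h1 h2 h3 h4 h5 => core2 hV hκ2 hκ2l hε hle hap
      (fun n e1 e2 => ha1 n (by omega) (by omega))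
      (fun u' v' e1 e2 e3 => htp u' v' (by omega) e2 (by omega)) hd0 hG hc hc1 hcG
      (fun n e1 e2 => hd n (by omega) (by omega))
      (fun n e1 e2 => hvp u n v h1 e1 e2 h2 (by omega)) h4 h5 J hJ h3
  have fm : ∀ u v, p ≤ u → v ≤ q → u + (2 * J + 4) ≤ v → bm u ≤ ε * Vc → bm v ≤ ε * Vc → False :=
    fun u v h1 h2 h3 h4 h5 => core2 hV hκ2 hκ2l hε hle' ham
      (fun n e1 e2 => ha1 n (by omega) (by omega))
      (fun u' v' e1 e2 e3 => htm u' v' (by omega) e2 (by omega)) hd0 hG hc hc1 hcG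
      (fun n e1 e2 => hd n (by omega) (by omega))
      (fun n e1 e2 => hvm u n v h1 e1 e2 h2 (by omega)) h4 h5 J hJ h3
  rcases hor A A3 with a1 | a1 <;> rcases hor B B3 with b1 | b1 <;>
    rcases hor C C3 with c1 | c1
  · exact fp A B (by omega) (by omega) hAB a1 b1
  · exact fp A B (by omega) (by omega) hAB a1 b1
  · exact fp A C (by omega) (by omega) hAC a1 c1
  · exact fm B C (by omega) (by omega) hBC b1 c1
  · exact fp B C (by omega) (by omega) hBC b1 c1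
  · exact fm A C (by omega) (by omega) hAC a1 c1
  · exact fm A B (by omega) (by omega) hAB a1 b1
  · exact fm A B (by omega) (by omega) hAB a1 b1

end Run7.h654.EACut
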