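import Pool.Agent.Run7.h654.EACut.Iso

/-!
# Columns of locally optimal configurations in ferromagnetic blocks
-/

set_option autoImplicit false

open Finset Pool.Agent.TH761.EA Pool.Agent.TH761.EB

namespace Run7.h654.EACut

variable {V I : Type} [Fintype V] [Fintype I] {s t : I → V}

open Classical in
/-- number of sites of column `n` at which the spin is not `r` -/
noncomputable def dev (σ : ℤ × V → ℝ) (r : ℝ) (n : ℤ) : ℕ :=
  ((Finset.univ : Finset V).filter fun x => ¬ σ (n, x) = r).card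

open Classical in
/-- number of bonds of column `n` at which the spin changes -/
noncomputable def chn (s t : I → V) (σ : ℤ × V → ℝ) (n : ℤ) : ℕ :=
  ((Finset.univ : Finset I).filter fun i => σ (n, s i) ≠ σ (n, t i)).card

open Classical in
/-- number of sites at which the spin changes from column `n` to column `n + 1` -/
noncomputable def hor (σ : ℤ × V → ℝ) (n : ℤ) : ℕ :=
  ((Finset.univ : Finset V).filter fun x => σ (n, x) ≠ σ (n + 1, x)).card

section scalar
variable {J b0 b1 x y r : ℝ}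

lemma oneA (h0 : 0 < b0) (h1 : b0 < J) (h2 : J < b1) (hx : x = 1 ∨ x = -1) (hy : y = 1 ∨ y = -1)
    (hr : r = 1 ∨ r = -1) : J * (x * y) + 2 * b0 * (if x ≠ y then 1 else 0) ≤
      J * (x * r) + (if ¬ x = r then 4 * b1 else 0) := by
  rcases hx with rfl | rfl <;> rcases hy with rfl | rfl <;> rcases hr with rfl | rfl <;>
    norm_num <;> linarith

lemma oneB (h0 : 0 < b0) (h1 : b0 < J) (h2 : J < b1) (hx : x = 1 ∨ x = -1) (hy : y = 1 ∨ y = -1)
    (hr : r = 1 ∨ r = -1) : J * (x * y) + 2 * b0 * (if x ≠ y then 1 else 0) ≤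
      J * (r * y) + (if ¬ y = r then 4 * b1 else 0) := by
  rcases hx with rfl | rfl <;> rcases hy with rfl | rfl <;> rcases hr with rfl | rfl <;>
    norm_num <;> linarith

lemma oneC (h1 : b0 < J) (hx : x = 1 ∨ x = -1) (hy : y = 1 ∨ y = -1)
    (hr : r = 1 ∨ r = -1) : J * (x * y) + 2 * b0 * (if x ≠ y then 1 else 0) ≤ J * (r * r) := by
  rcases hx with rfl | rfl <;> rcases hy with rfl | rfl <;> rcases hr with rfl | rfl <;>
    norm_num <;> linarith

lemma oneD (h0 : 0 < b0) (h1 : b0 < b1) (hx : x = 1 ∨ x = -1) (hy : y = 1 ∨ y = -1)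
    (hr : r = 1 ∨ r = -1) : J * (x * y) + 2 * b0 * (if x ≠ y then 1 else 0) ≤
      J * (x * y) + ((if ¬ x = r then 4 * b1 else 0) + (if ¬ y = r then 4 * b1 else 0)) := by
  rcases hx with rfl | rfl <;> rcases hy with rfl | rfl <;> rcases hr with rfl | rfl <;>
    norm_num <;> linarith

end scalar

theorem cmp {J : ℤ × (V ⊕ I) → ℝ} {σ : ℤ × V → ℝ} {P Q : ℤ} (h : GrOn s t J σ P Q)
    {b0 b1 : ℝ} (hb0 : 0 < b0) (hb1 : b0 < b1) {h1 h2 : ℤ}
    (hJ : ∀ n ∈ Ico h1 h2, ∀ c, b0 < J (n, c) ∧ J (n, c) < b1) (h12 : h1 < h2)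
    (hP : P ≤ h1) (hQ : h2 ≤ Q) {r : ℝ} (hr : r = 1 ∨ r = -1) :
    b0 * (∑ n ∈ Ico h1 h2, ((if h1 < n then (chn s t σ n : ℝ) else 0) + hor σ n)) ≤
      2 * b1 * (dev σ r h1 + dev σ r h2) := by
  classical
  set ρ : ℤ × V → ℝ := fun v => if h1 < v.1 ∧ v.1 < h2 then r else σ v with hρ
  have hPρ : Pm ρ := by
    intro v
    by_cases hv : h1 < v.1 ∧ v.1 < h2
    · simp only [hρ, hv, and_self, if_true]; exact hr
    · simp only [hρ, hv, if_false]; exact h.1 v
  have hbρ : ∀ n x, n ≤ h1 ∨ h2 ≤ n → ρ (n, x) = σ (n, x) := by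
    intro n x hn
    have : ¬ (h1 < n ∧ n < h2) := by omega
    simp [hρ, this]
  have hinρ : ∀ n x, h1 < n → n < h2 → ρ (n, x) = r := by
    intro n x e1 e2
    simp [hρ, e1, e2]
  have hle := h.le hP hQ hPρ hbρ
  have hdevr : ∀ n, (dev σ r n : ℝ) = ∑ x : V, if ¬ σ (n, x) = r then (1 : ℝ) else 0 := by
    intro n
    unfold dev
    rw [Finset.card_filter]; push_cast; rfl
  have hchn : ∀ n, (chn s t σ n : ℝ) = ∑ i : I, if σ (n, s i) ≠ σ (n, t i) then (1 : ℝ) else 0 := by
    intro n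
    unfold chn
    rw [Finset.card_filter]; push_cast; rfl
  have hhor : ∀ n, (hor σ n : ℝ) = ∑ x : V, if σ (n, x) ≠ σ (n + 1, x) then (1 : ℝ) else 0 := by
    intro n
    unfold hor
    rw [Finset.card_filter]; push_cast; rfl
  have key : ∀ n ∈ Ico h1 h2, en s t J σ n + 2 * b0 *
      ((if h1 < n then (chn s t σ n : ℝ) else 0) + hor σ n) ≤
      en s t J ρ n + ((if n = h1 then 4 * b1 * dev σ r h1 else 0) +
        (if n = h2 - 1 then 4 * b1 * dev σ r h2 else 0)) := by
    intro n hn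
    have hn' := Finset.mem_Ico.1 hn
    have hJn := hJ n hn
    unfold en
    rw [Fintype.sum_sum_type, Fintype.sum_sum_type]
    have hhorz : ∑ x, J (n, Sum.inl x) * bd s t σ (n, Sum.inl x) + 2 * b0 * hor σ n ≤
        ∑ x, J (n, Sum.inl x) * bd s t ρ (n, Sum.inl x) +
          ((if n = h1 then 4 * b1 * dev σ r h1 else 0) +
            (if n = h2 - 1 then 4 * b1 * dev σ r h2 else 0)) := by
      have e1 : (if n = h1 then 4 * b1 * (dev σ r h1 : ℝ) else 0) =
          ∑ x : V, if n = h1 ∧ ¬ σ (h1, x) = r then 4 * b1 else 0 := by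
        by_cases hc : n = h1
        · simp only [hc, true_and, if_true]
          rw [hdevr, Finset.mul_sum]
          exact Finset.sum_congr rfl fun x _ => by split_ifs <;> ring
        · simp [hc]
      have e2 : (if n = h2 - 1 then 4 * b1 * (dev σ r h2 : ℝ) else 0) =
          ∑ x : V, if n = h2 - 1 ∧ ¬ σ (h2, x) = r then 4 * b1 else 0 := by
        by_cases hc : n = h2 - 1
        · simp only [hc, true_and, if_true]
          rw [hdevr, Finset.mul_sum]
          exact Finset.sum_congr rfl fun x _ => by split_ifs <;> ring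
        · simp [hc]
      rw [e1, e2, hhor, Finset.mul_sum, ← Finset.sum_add_distrib, ← Finset.sum_add_distrib,
        ← Finset.sum_add_distrib]
      refine Finset.sum_le_sum fun x _ => ?_
      have hJx := hJn (Sum.inl x)
      have hb : bd s t σ (n, Sum.inl x) = σ (n, x) * σ (n + 1, x) := rfl
      have hb' : bd s t ρ (n, Sum.inl x) = ρ (n, x) * ρ (n + 1, x) := rfl
      rw [hb, hb']
      have g1 := h.1 (n, x)
      have g2 := h.1 (n + 1, x)
      rcases eq_or_lt_of_le hn'.1 with c1 | c1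
      · have hρn : ρ (n, x) = σ (n, x) := hbρ n x (Or.inl c1.ge)
        have q1 : (if n = h1 ∧ ¬ σ (h1, x) = r then 4 * b1 else 0) =
            if ¬ σ (n, x) = r then 4 * b1 else 0 := by
          rw [← c1]; simp
        rcases eq_or_lt_of_le (show n + 1 ≤ h2 by omega) with c2 | c2
        · have hρn1 : ρ (n + 1, x) = σ (n + 1, x) := hbρ (n + 1) x (Or.inr c2.ge)
          have q2 : (if n = h2 - 1 ∧ ¬ σ (h2, x) = r then 4 * b1 else 0) =
              if ¬ σ (n + 1, x) = r then 4 * b1 else 0 := by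
            rw [← c2]; simp
          rw [hρn, hρn1, q1, q2]
          exact oneD hb0 hb1 g1 g2 hr
        · have hρn1 : ρ (n + 1, x) = r := hinρ (n + 1) x (by omega) c2
          have q2 : (if n = h2 - 1 ∧ ¬ σ (h2, x) = r then 4 * b1 else 0) = 0 := by
            rw [if_neg]; rintro ⟨hc, -⟩; omega
          rw [hρn, hρn1, q1, q2, add_zero]
          exact oneA hb0 hJx.1 hJx.2 g1 g2 hr
      · have hρn : ρ (n, x) = r := hinρ n x c1 hn'.2
        have q1 : (if n = h1 ∧ ¬ σ (h1, x) = r then 4 * b1 else 0) = 0 := by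
          rw [if_neg]; rintro ⟨hc, -⟩; omega
        rcases eq_or_lt_of_le (show n + 1 ≤ h2 by omega) with c2 | c2
        · have hρn1 : ρ (n + 1, x) = σ (n + 1, x) := hbρ (n + 1) x (Or.inr c2.ge)
          have q2 : (if n = h2 - 1 ∧ ¬ σ (h2, x) = r then 4 * b1 else 0) =
              if ¬ σ (n + 1, x) = r then 4 * b1 else 0 := by
            rw [← c2]; simp
          rw [hρn, hρn1, q1, q2, zero_add]
          exact oneB hb0 hJx.1 hJx.2 g1 g2 hr
        · have hρn1 : ρ (n + 1, x) = r := hinρ (n + 1) x (by omega) c2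
          have q2 : (if n = h2 - 1 ∧ ¬ σ (h2, x) = r then 4 * b1 else 0) = 0 := by
            rw [if_neg]; rintro ⟨hc, -⟩; omega
          rw [hρn, hρn1, q1, q2, add_zero, add_zero]
          exact oneC hJx.1 g1 g2 hr
    have hint : ∑ i, J (n, Sum.inr i) * bd s t σ (n, Sum.inr i) +
        2 * b0 * (if h1 < n then (chn s t σ n : ℝ) else 0) ≤
        ∑ i, J (n, Sum.inr i) * bd s t ρ (n, Sum.inr i) := by
      by_cases hc : h1 < n
      · rw [if_pos hc, hchn, Finset.mul_sum, ← Finset.sum_add_distrib]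
        refine Finset.sum_le_sum fun i _ => ?_
        have hJx := hJn (Sum.inr i)
        have hb : bd s t σ (n, Sum.inr i) = σ (n, s i) * σ (n, t i) := rfl
        have hb' : bd s t ρ (n, Sum.inr i) = ρ (n, s i) * ρ (n, t i) := rfl
        rw [hb, hb', hinρ n _ hc hn'.2, hinρ n _ hc hn'.2]
        exact oneC hJx.1 (h.1 _) (h.1 _) hr
      · rw [if_neg hc, mul_zero, add_zero]
        refine le_of_eq (Finset.sum_congr rfl fun i _ => ?_)
        have hb : bd s t σ (n, Sum.inr i) = σ (n, s i) * σ (n, t i) := rfl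
        have hb' : bd s t ρ (n, Sum.inr i) = ρ (n, s i) * ρ (n, t i) := rfl
        rw [hb, hb', hbρ n _ (Or.inl (by omega)), hbρ n _ (Or.inl (by omega))]
    linarith
  have hsum := Finset.sum_le_sum key
  rw [Finset.sum_add_distrib, Finset.sum_add_distrib, Finset.sum_add_distrib,
    Finset.sum_ite_eq' _ h1, Finset.sum_ite_eq' _ (h2 - 1), if_pos (Finset.mem_Ico.2 ⟨le_rfl, h12⟩),
    if_pos (Finset.mem_Ico.2 ⟨by omega, by omega⟩), ← Finset.mul_sum] at hsum
  unfold S at hle
  linarith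

end Run7.h654.EACut
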