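import Mathlib

/-!
# Resampling one coordinate of an infinite product measure
-/

set_option autoImplicit false

open MeasureTheory

namespace Run7.h654.EACut

variable {E : Type} (μ : Measure ℝ) [IsProbabilityMeasure μ]

lemma upd_meas [DecidableEq E] (e : E) :
    Measurable (fun p : (E → ℝ) × ℝ => Function.update p.1 e p.2) := by
  rw [measurable_pi_iff]
  intro i
  by_cases h : i = e
  · subst h; simpa using measurable_snd
  · simp only [Function.update_of_ne h]; fun_prop

theorem map_upd [DecidableEq E] (e : E) :
    ((Measure.infinitePi fun _ : E => μ).prod μ).map (fun p => Function.update p.1 e p.2)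
      = Measure.infinitePi fun _ : E => μ := by
  apply Measure.eq_infinitePi
  intro s t ht
  rw [Measure.map_apply (upd_meas e) (MeasurableSet.pi s.countable_toSet fun i _ => ht i)]
  by_cases he : e ∈ s
  · have h1 : (fun p : (E → ℝ) × ℝ => Function.update p.1 e p.2) ⁻¹' (Set.pi s t) =
        (Set.pi (s.erase e) t) ×ˢ (t e) := by
      ext p
      simp only [Set.mem_preimage, Set.mem_pi, Set.mem_prod, Finset.coe_erase, Set.mem_sdiff,
        Set.mem_singleton_iff, Finset.mem_coe]
      constructor
      · intro h
        refine ⟨fun i hi => ?_, ?_⟩
        · have := h i hi.1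
          rwa [Function.update_of_ne hi.2] at this
        · have := h e he
          rwa [Function.update_self] at this
      · rintro ⟨h, h'⟩ i hi
        by_cases hie : i = e
        · subst hie; rwa [Function.update_self]
        · rw [Function.update_of_ne hie]; exact h i ⟨hi, hie⟩
    rw [h1, Measure.prod_prod, Measure.infinitePi_pi _ (fun i _ => ht i), mul_comm,
      Finset.mul_prod_erase s (fun i => μ (t i)) he]
  · have h1 : (fun p : (E → ℝ) × ℝ => Function.update p.1 e p.2) ⁻¹' (Set.pi s t) =
        (Set.pi s t) ×ˢ Set.univ := by
      ext p
      simp only [Set.mem_preimage, Set.mem_pi, Set.mem_prod, Finset.mem_coe, Set.mem_univ,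
        and_true]
      refine forall₂_congr fun i hi => ?_
      rw [Function.update_of_ne (by rintro rfl; exact he hi)]
    rw [h1, Measure.prod_prod, Measure.infinitePi_pi _ (fun i _ => ht i), measure_univ, mul_one]

/-- A measurable set which contains at most one point of every line in direction `e` is null. -/
theorem null_of_lines (hat : ∀ x, μ {x} = 0) [DecidableEq E] (e : E) {N : Set (E → ℝ)}
    (hN : MeasurableSet N)
    (h : ∀ J : E → ℝ, {x | Function.update J e x ∈ N}.Subsingleton) :
    (Measure.infinitePi fun _ : E => μ) N = 0 := by
  rw [← map_upd μ e, Measure.map_apply (upd_meas e) hN,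
    Measure.measure_prod_null (upd_meas e hN)]
  refine Filter.Eventually.of_forall fun J => ?_
  change μ {x | Function.update J e x ∈ N} = 0
  rcases (h J).eq_empty_or_singleton with h1 | ⟨x, h1⟩
  · rw [h1, measure_empty]
  · rw [h1]; exact hat x

end Run7.h654.EACut
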