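import Pool.Agent.TH761.EB.Gen
import Pool.Agent.Run7.h654.EACut.Upd

/-!
# Weak cuts: two ground states agree on every bond
-/

set_option autoImplicit false

open Finset MeasureTheory Pool.Agent.TH761.EB

namespace Run7.h654.EACut

variable {X E : Type} (a b : E → X) (R : Set X)

open Classical in
/-- the configuration which is `-1` exactly on `A` -/
noncomputable def cc (A : Finset X) (x : X) : ℝ := if x ∈ A then -1 else 1

variable (hfib : ∀ x, {e | a e = x ∨ b e = x}.Finite)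

open Classical in
/-- the bonds which touch `Λ` -/
noncomputable def tch (Λ : Finset X) : Finset E := Λ.biUnion fun x => (hfib x).toFinset

open Classical in
/-- the bonds inside `Λ` -/
noncomputable def inn (Λ : Finset X) : Finset E :=
  (tch a b hfib Λ).filter fun e => a e ∈ Λ ∧ b e ∈ Λ

open Classical in
/-- the bonds between `Λ` and the rest of `R` -/
noncomputable def bdy (Λ : Finset X) : Finset E :=
  (tch a b hfib Λ).filter fun e => ¬ (a e ∈ Λ ∧ b e ∈ Λ) ∧ a e ∈ R ∧ b e ∈ R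

/-- the strength of the cut around `Λ` -/
noncomputable def Wt (Λ : Finset X) (J : E → ℝ) : ℝ := ∑ e ∈ bdy a b R hfib Λ, |J e|

/-- minus the energy inside `Λ` -/
noncomputable def En (Λ : Finset X) (J : E → ℝ) (A : Finset X) : ℝ :=
  ∑ e ∈ inn a b hfib Λ, J e * (cc A (a e) * cc A (b e))

variable {a b R hfib}

lemma mem_tch {Λ : Finset X} {e : E} : e ∈ tch a b hfib Λ ↔ a e ∈ Λ ∨ b e ∈ Λ := by
  classical
  simp only [tch, Finset.mem_biUnion, Set.Finite.mem_toFinset, Set.mem_ofPred_eq]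
  constructor
  · rintro ⟨x, hx, h | h⟩
    · left; rw [h]; exact hx
    · right; rw [h]; exact hx
  · rintro (h | h)
    · exact ⟨_, h, Or.inl rfl⟩
    · exact ⟨_, h, Or.inr rfl⟩

lemma mem_inn {Λ : Finset X} {e : E} : e ∈ inn a b hfib Λ ↔ a e ∈ Λ ∧ b e ∈ Λ := by
  classical
  rw [inn, Finset.mem_filter, mem_tch]
  tauto

lemma mem_bdy {Λ : Finset X} {e : E} : e ∈ bdy a b R hfib Λ ↔
    (a e ∈ Λ ∨ b e ∈ Λ) ∧ ¬ (a e ∈ Λ ∧ b e ∈ Λ) ∧ a e ∈ R ∧ b e ∈ R := by
  classical
  rw [bdy, Finset.mem_filter, mem_tch]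

lemma Wt_nonneg (Λ : Finset X) (J : E → ℝ) : 0 ≤ Wt a b R hfib Λ J :=
  Finset.sum_nonneg fun _ _ => abs_nonneg _

lemma Wt_meas (Λ : Finset X) : Measurable fun J : E → ℝ => Wt a b R hfib Λ J := by
  unfold Wt
  refine Finset.measurable_sum _ fun e _ => ?_
  exact (measurable_pi_apply e).abs

lemma En_meas (Λ A : Finset X) : Measurable fun J : E → ℝ => En a b hfib Λ J A := by
  unfold En
  fun_prop

lemma Wt_upd [DecidableEq E] {Λ : Finset X} {e : E} (he : a e ∈ Λ ∧ b e ∈ Λ) (J : E → ℝ) (x : ℝ) :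
    Wt a b R hfib Λ (Function.update J e x) = Wt a b R hfib Λ J := by
  unfold Wt
  refine Finset.sum_congr rfl fun f hf => ?_
  rw [Function.update_of_ne]
  rintro rfl
  exact (mem_bdy.1 hf).2.1 he

lemma En_upd [DecidableEq E] {Λ : Finset X} {e : E} (he : a e ∈ Λ ∧ b e ∈ Λ) (J : E → ℝ)
    (x x' : ℝ) (A : Finset X) :
    En a b hfib Λ (Function.update J e x') A =
      En a b hfib Λ (Function.update J e x) A + (x' - x) * (cc A (a e) * cc A (b e)) := by
  unfold En
  have he' : e ∈ inn a b hfib Λ := mem_inn.2 he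
  rw [← Finset.add_sum_erase _ _ he', ← Finset.add_sum_erase (inn a b hfib Λ)
    (fun f => Function.update J e x f * (cc A (a f) * cc A (b f))) he']
  have h : ∑ f ∈ (inn a b hfib Λ).erase e, Function.update J e x' f * (cc A (a f) * cc A (b f)) =
      ∑ f ∈ (inn a b hfib Λ).erase e, Function.update J e x f * (cc A (a f) * cc A (b f)) := by
    refine Finset.sum_congr rfl fun f hf => ?_
    rw [Function.update_of_ne (Finset.ne_of_mem_erase hf),
      Function.update_of_ne (Finset.ne_of_mem_erase hf)]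
  rw [h, Function.update_self, Function.update_self]
  ring

lemma cc_pm (A : Finset X) (x : X) : cc A x = 1 ∨ cc A x = -1 := by
  unfold cc
  split_ifs
  · right; rfl
  · left; rfl

open Classical in
/-- the sites of `Λ` at which `σ` is `-1` -/
noncomputable def mi (Λ : Finset X) (σ : X → ℝ) : Finset X := Λ.filter fun x => σ x = -1

lemma mi_sub (Λ : Finset X) (σ : X → ℝ) : mi Λ σ ⊆ Λ := Finset.filter_subset _ _

lemma cc_mi {Λ : Finset X} {σ : X → ℝ} (hΛ : (Λ : Set X) ⊆ R) (hσ : Cf R σ) {x : X}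
    (hx : x ∈ Λ) : cc (mi Λ σ) x = σ x := by
  classical
  unfold cc mi
  rcases hσ.1 x (hΛ hx) with h | h
  · rw [if_neg, h]
    rw [Finset.mem_filter, h]
    norm_num
  · rw [if_pos, h]
    rw [Finset.mem_filter]
    exact ⟨hx, h⟩

/-- A ground state is optimal in `Λ` up to twice the strength of the cut. -/
theorem almost_max {J : E → ℝ} {σ : X → ℝ} (hσ : GS a b R J σ) {Λ : Finset X}
    (hΛ : (Λ : Set X) ⊆ R) (C : Finset X) :
    En a b hfib Λ J C ≤ En a b hfib Λ J (mi Λ σ) + 2 * Wt a b R hfib Λ J := by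
  classical
  set ρ : X → ℝ := fun x => if x ∈ Λ then cc C x else σ x with hρ
  have hcf : Cf R ρ := by
    refine ⟨fun x hx => ?_, fun x hx => ?_⟩
    · simp only [hρ]
      split_ifs
      · exact cc_pm C x
      · exact hσ.1.1 x hx
    · have : x ∉ Λ := fun h => hx (hΛ h)
      simp only [hρ, this, if_false]
      exact hσ.1.2 x hx
  have hfin : {x | ρ x ≠ σ x}.Finite := by
    refine (Finset.finite_toSet Λ).subset fun x hx => ?_
    by_contra hc
    apply hx
    have : x ∉ Λ := fun h => hc h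
    simp only [hρ, this, if_false]
  have hin : ∀ x ∈ Λ, ρ x = cc C x := fun x hx => by simp only [hρ, hx, if_true]
  have hout : ∀ x, x ∉ Λ → ρ x = σ x := fun x hx => by simp only [hρ, hx, if_false]
  by_cases hne : ρ = σ
  · have h1 : En a b hfib Λ J C = En a b hfib Λ J (mi Λ σ) := by
      unfold En
      refine Finset.sum_congr rfl fun e he => ?_
      have he' := mem_inn.1 he
      rw [cc_mi hΛ hσ.1 he'.1, cc_mi hΛ hσ.1 he'.2, ← hin _ he'.1, ← hin _ he'.2, hne]
    have h2 := Wt_nonneg (a := a) (b := b) (R := R) (hfib := hfib) Λ J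
    linarith
  have h0 := hσ.2 ρ hcf hfin hne
  have hfs : ∑ᶠ e, J e * (σ (a e) * σ (b e) - ρ (a e) * ρ (b e)) =
      ∑ e ∈ tch a b hfib Λ, J e * (σ (a e) * σ (b e) - ρ (a e) * ρ (b e)) := by
    apply finsum_eq_sum_of_support_subset
    intro e he
    by_contra hc2
    apply he
    have h1 : ¬ (a e ∈ Λ ∨ b e ∈ Λ) := fun h => hc2 (mem_tch.2 h)
    push Not at h1
    simp only [hout _ h1.1, hout _ h1.2, sub_self, mul_zero]
  rw [hfs] at h0
  have hW : Wt a b R hfib Λ J = ∑ e ∈ tch a b hfib Λ,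
      if ¬ (a e ∈ Λ ∧ b e ∈ Λ) ∧ a e ∈ R ∧ b e ∈ R then |J e| else 0 := by
    unfold Wt bdy
    rw [Finset.sum_filter]
  have hE : ∀ A, En a b hfib Λ J A = ∑ e ∈ tch a b hfib Λ,
      if a e ∈ Λ ∧ b e ∈ Λ then J e * (cc A (a e) * cc A (b e)) else 0 := by
    intro A
    unfold En inn
    rw [Finset.sum_filter]
  have hle : ∑ e ∈ tch a b hfib Λ, J e * (σ (a e) * σ (b e) - ρ (a e) * ρ (b e)) ≤
      En a b hfib Λ J (mi Λ σ) - En a b hfib Λ J C + 2 * Wt a b R hfib Λ J := by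
    rw [hE, hE, hW, Finset.mul_sum, ← Finset.sum_sub_distrib, ← Finset.sum_add_distrib]
    refine Finset.sum_le_sum fun e _ => ?_
    by_cases h1 : a e ∈ Λ ∧ b e ∈ Λ
    · simp only [h1, and_self, if_true, not_true_eq_false, false_and, if_false]
      rw [cc_mi hΛ hσ.1 h1.1, cc_mi hΛ hσ.1 h1.2, hin _ h1.1, hin _ h1.2]
      linarith
    · rw [if_neg h1, if_neg h1]
      by_cases h2 : a e ∈ R ∧ b e ∈ R
      · rw [if_pos ⟨h1, h2⟩]
        have h3 := abs_le.1 (le_refl |J e|)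
        rcases hσ.1.1 _ h2.1 with s1 | s1 <;> rcases hσ.1.1 _ h2.2 with s2 | s2 <;>
          rcases hcf.1 _ h2.1 with s3 | s3 <;> rcases hcf.1 _ h2.2 with s4 | s4 <;>
          rw [s1, s2, s3, s4] <;> linarith
      · rw [if_neg (fun h => h2 h.2)]
        rcases not_and_or.1 h2 with h3 | h3
        · rw [hσ.1.2 _ h3, hcf.2 _ h3]; simp
        · rw [hσ.1.2 _ h3, hcf.2 _ h3]; simp
  linarith

variable (a b R hfib)

/-- the spins of the bond `e` can have product `s` in an almost optimal configuration -/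
def Qs (Λ : Finset X) (e : E) (s : ℝ) (J : E → ℝ) : Prop :=
  ∃ A : Finset X, cc A (a e) * cc A (b e) = s ∧
    ∀ C : Finset X, En a b hfib Λ J C ≤ En a b hfib Λ J A + 2 * Wt a b R hfib Λ J

/-- the couplings for which both signs are possible at `e`, and which have weak cuts around `e` -/
def Bad (e : E) : Set (E → ℝ) :=
  {J | (∀ Λ : Finset X, (Λ : Set X) ⊆ R → a e ∈ Λ → b e ∈ Λ →
      Qs a b R hfib Λ e 1 J ∧ Qs a b R hfib Λ e (-1) J) ∧
    ∀ n : ℕ, ∃ Λ : Finset X, (Λ : Set X) ⊆ R ∧ a e ∈ Λ ∧ b e ∈ Λ ∧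
      Wt a b R hfib Λ J ≤ 1 / ((n : ℝ) + 1)}

variable {a b R hfib}

lemma Bad_meas [Countable X] (e : E) : MeasurableSet (Bad a b R hfib e) := by
  have hle : ∀ (Λ C A : Finset X), Measurable fun J : E → ℝ =>
      En a b hfib Λ J C ≤ En a b hfib Λ J A + 2 * Wt a b R hfib Λ J := fun Λ C A =>
    measurableSet_setOf.1 (measurableSet_le (En_meas Λ C)
      ((En_meas Λ A).add ((Wt_meas Λ).const_mul 2)))
  have hQ : ∀ (Λ : Finset X) (s : ℝ), Measurable fun J : E → ℝ => Qs a b R hfib Λ e s J := by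
    intro Λ s
    unfold Qs
    exact Measurable.exists fun A => measurable_const.and (Measurable.forall fun C => hle Λ C A)
  have hW : ∀ (Λ : Finset X) (n : ℕ), Measurable fun J : E → ℝ =>
      Wt a b R hfib Λ J ≤ 1 / ((n : ℝ) + 1) := fun Λ n =>
    measurableSet_setOf.1 (measurableSet_le (Wt_meas Λ) measurable_const)
  apply measurableSet_setOf.2
  refine Measurable.and ?_ ?_
  · exact Measurable.forall fun Λ => measurable_const.imp (measurable_const.imp
      (measurable_const.imp ((hQ Λ 1).and (hQ Λ (-1)))))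
  · exact Measurable.forall fun n => Measurable.exists fun Λ => measurable_const.and
      (measurable_const.and (measurable_const.and (hW Λ n)))

lemma Bad_line [DecidableEq E] (e : E) (J : E → ℝ) :
    {x | Function.update J e x ∈ Bad a b R hfib e}.Subsingleton := by
  have key : ∀ x x' : ℝ, Function.update J e x ∈ Bad a b R hfib e →
      Function.update J e x' ∈ Bad a b R hfib e → x' ≤ x := by
    intro x x' h h'
    by_contra hlt
    push Not at hlt
    obtain ⟨n, hn⟩ := exists_nat_one_div_lt (show (0 : ℝ) < (x' - x) / 2 by linarith)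
    obtain ⟨Λ, hΛ, h1, h2, hW⟩ := h.2 n
    obtain ⟨A, hA, hA'⟩ := (h.1 Λ hΛ h1 h2).1
    obtain ⟨B, hB, hB'⟩ := (h'.1 Λ hΛ h1 h2).2
    have e1 := hA' B
    have e2 := hB' A
    rw [Wt_upd ⟨h1, h2⟩] at e1 e2 hW
    rw [En_upd ⟨h1, h2⟩ J x x' A, En_upd ⟨h1, h2⟩ J x x' B, hA, hB] at e2
    linarith
  intro x hx x' hx'
  exact le_antisymm (key x' x hx' hx) (key x x' hx hx')

variable (μ : Measure ℝ) [IsProbabilityMeasure μ]

theorem not_bad (hat : ∀ x, μ {x} = 0) [Countable X] [Countable E] :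
    ∀ᵐ J ∂(Measure.infinitePi fun _ : E => μ), ∀ e, J ∉ Bad a b R hfib e := by
  classical
  rw [ae_all_iff]
  intro e
  have h := null_of_lines μ hat e (Bad_meas (a := a) (b := b) (R := R) (hfib := hfib) e)
    (Bad_line e)
  rw [ae_iff]
  simpa using h

/-- Two ground states agree on all the bonds of `R`. -/
theorem agree_bonds {J : E → ℝ} (hb : ∀ e, J ∉ Bad a b R hfib e)
    (hcut : ∀ A : Finset X, (A : Set X) ⊆ R → ∀ δ : ℝ, 0 < δ → ∃ Λ : Finset X, A ⊆ Λ ∧
      (Λ : Set X) ⊆ R ∧ Wt a b R hfib Λ J ≤ δ)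
    {σ τ : X → ℝ} (hσ : GS a b R J σ) (hτ : GS a b R J τ) {e : E} (ha : a e ∈ R)
    (hbR : b e ∈ R) : σ (a e) * σ (b e) = τ (a e) * τ (b e) := by
  classical
  have main : ∀ σ τ : X → ℝ, GS a b R J σ → GS a b R J τ →
      σ (a e) * σ (b e) = 1 → τ (a e) * τ (b e) = -1 → False := by
    intro σ τ hσ hτ h1 h2
    refine hb e ⟨fun Λ hΛ h3 h4 => ⟨⟨mi Λ σ, ?_, almost_max hσ hΛ⟩,
      ⟨mi Λ τ, ?_, almost_max hτ hΛ⟩⟩, fun n => ?_⟩
    · rw [cc_mi hΛ hσ.1 h3, cc_mi hΛ hσ.1 h4, h1]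
    · rw [cc_mi hΛ hτ.1 h3, cc_mi hΛ hτ.1 h4, h2]
    · obtain ⟨Λ, h5, h6, h7⟩ := hcut {a e, b e} (by
        intro x hx
        simp only [Finset.coe_insert, Finset.coe_singleton, Set.mem_insert_iff,
          Set.mem_singleton_iff] at hx
        rcases hx with rfl | rfl
        · exact ha
        · exact hbR) (1 / ((n : ℝ) + 1)) (by positivity)
      exact ⟨Λ, h6, h5 (by simp), h5 (by simp), h7⟩
  have p1 : σ (a e) * σ (b e) = 1 ∨ σ (a e) * σ (b e) = -1 := by
    rcases hσ.1.1 _ ha with h1 | h1 <;> rcases hσ.1.1 _ hbR with h2 | h2 <;>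
      rw [h1, h2] <;> norm_num
  have p2 : τ (a e) * τ (b e) = 1 ∨ τ (a e) * τ (b e) = -1 := by
    rcases hτ.1.1 _ ha with h1 | h1 <;> rcases hτ.1.1 _ hbR with h2 | h2 <;>
      rw [h1, h2] <;> norm_num
  rcases p1 with h1 | h1 <;> rcases p2 with h2 | h2
  · rw [h1, h2]
  · exact (main σ τ hσ hτ h1 h2).elim
  · exact (main τ σ hτ hσ h2 h1).elim
  · rw [h1, h2]

end Run7.h654.EACut
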