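import Pool.Agent.TH761.EB.Horn

/-!
# An isoperimetric inequality in boxes
-/

set_option autoImplicit false

open Finset Pool.Agent.TH761.EB

namespace Run7.h654.EACut

/-- one coordinate of the box -/
abbrev Ax (m : ℕ) : Type := Finset.Icc (-(m : ℤ)) (m : ℤ)

/-- clipped successor -/
def suc {m : ℕ} (a : Ax m) : Ax m := ⟨min ((a : ℤ) + 1) m, by
  have h := Finset.mem_Icc.1 a.2
  rw [Finset.mem_Icc]; constructor <;> omega⟩

lemma card_Ax (m : ℕ) : Fintype.card (Ax m) = 2 * m + 1 := by
  rw [Fintype.card_coe, Int.card_Icc]; omega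

lemma card_Bx2 (k m : ℕ) : Fintype.card (Bx k m) = (2 * m + 1) ^ k := by
  rw [Fintype.card_fun, Fintype.card_fin, card_Ax]

lemma const_of_suc {m : ℕ} {α : Type} (h : Ax m → α) (hs : ∀ a, h a = h (suc a)) (a b : Ax m) :
    h a = h b := by
  have h0 : -(m : ℤ) ∈ Finset.Icc (-(m : ℤ)) (m : ℤ) := by rw [Finset.mem_Icc]; omega
  have key : ∀ n : ℤ, -(m : ℤ) ≤ n → ∀ hn : n ∈ Finset.Icc (-(m : ℤ)) (m : ℤ),
      h ⟨n, hn⟩ = h ⟨-(m : ℤ), h0⟩ := by
    intro n hn
    induction n, hn using Int.leInduction with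
    | base => intro _; rfl
    | succ n hn ih =>
      intro hn1
      have h2 := (Finset.mem_Icc.1 hn1).2
      have hn0 : n ∈ Finset.Icc (-(m : ℤ)) (m : ℤ) := by rw [Finset.mem_Icc]; omega
      rw [← ih hn0, hs ⟨n, hn0⟩]
      congr 1
      apply Subtype.ext
      simp only [suc]
      omega
  rw [show a = ⟨(a : ℤ), a.2⟩ from rfl, show b = ⟨(b : ℤ), b.2⟩ from rfl,
    key _ (Finset.mem_Icc.1 a.2).1 a.2, key _ (Finset.mem_Icc.1 b.2).1 b.2]

open Classical in
lemma line_count {m : ℕ} {α : Type} (h : Ax m → α) :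
    ∑ a, ∑ b, (if h a ≠ h b then 1 else 0 : ℕ) ≤
      (2 * m + 1) ^ 2 * ∑ a, (if h a ≠ h (suc a) then 1 else 0 : ℕ) := by
  by_cases hs : ∀ a, h a = h (suc a)
  · have : ∀ a b, (if h a ≠ h b then 1 else 0 : ℕ) = 0 := fun a b => by
      rw [if_neg]; exact fun hne => hne (const_of_suc h hs a b)
    simp [this]
  · push Not at hs
    obtain ⟨a0, ha0⟩ := hs
    have h1 : 1 ≤ ∑ a, (if h a ≠ h (suc a) then 1 else 0 : ℕ) := by
      refine le_trans ?_ (Finset.single_le_sum (f := fun a => (if h a ≠ h (suc a) then 1 else 0 : ℕ))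
        (fun _ _ => Nat.zero_le _) (Finset.mem_univ a0))
      simp [ha0]
    have h2 : ∑ a, ∑ b, (if h a ≠ h b then 1 else 0 : ℕ) ≤ (2 * m + 1) ^ 2 := by
      calc ∑ a, ∑ b, (if h a ≠ h b then 1 else 0 : ℕ) ≤ ∑ _a : Ax m, ∑ _b : Ax m, 1 :=
            Finset.sum_le_sum fun a _ => Finset.sum_le_sum fun b _ => by split_ifs <;> omega
        _ = (2 * m + 1) ^ 2 := by
            simp only [Finset.sum_const, Finset.card_univ, card_Ax, smul_eq_mul, mul_one]
            ring
    nlinarith

lemma sum_cons {k m : ℕ} (F : (Fin (k + 1) → Ax m) → ℕ) :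
    ∑ x, F x = ∑ a : Ax m, ∑ x : Fin k → Ax m, F (Fin.cons a x) := by
  rw [← Fintype.sum_prod_type']
  exact (Fintype.sum_equiv (Fin.consEquiv fun _ => Ax m) _ _ fun _ => rfl).symm

open Classical in
/-- number of bonds of the box at which `g` changes -/
noncomputable def Bdn (k m : ℕ) {α : Type} (g : (Fin k → Ax m) → α) : ℕ :=
  ∑ j, ∑ x, if g x ≠ g (Function.update x j (suc (x j))) then 1 else 0

open Classical in
theorem pairs_le (k m : ℕ) {α : Type} (g : (Fin k → Ax m) → α) :
    ∑ x, ∑ y, (if g x ≠ g y then 1 else 0 : ℕ) ≤ (2 * m + 1) ^ (k + 1) * Bdn k m g := by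
  induction k with
  | zero =>
    have : ∀ x y : Fin 0 → Ax m, (if g x ≠ g y then 1 else 0 : ℕ) = 0 := fun x y => by
      rw [Subsingleton.elim x y]; simp
    simp [this]
  | succ k ih =>
    set M : ℕ := 2 * m + 1 with hM
    set G : Ax m → (Fin k → Ax m) → α := fun a x => g (Fin.cons a x) with hG
    have hB : Bdn (k + 1) m g = ∑ x, ∑ a, (if G a x ≠ G (suc a) x then 1 else 0 : ℕ) +
        ∑ a, Bdn k m (G a) := by
      unfold Bdn
      rw [Fin.sum_univ_succ]
      congr 1
      · rw [sum_cons, Finset.sum_comm]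
        refine Finset.sum_congr rfl fun x _ => Finset.sum_congr rfl fun a _ => ?_
        simp only [Fin.cons_zero, Fin.update_cons_zero, hG]
      · simp only [sum_cons]
        rw [Finset.sum_comm]
        refine Finset.sum_congr rfl fun a _ => Finset.sum_congr rfl fun j _ =>
          Finset.sum_congr rfl fun x _ => ?_
        simp only [Fin.cons_succ, ← Fin.cons_update, hG]
    have h1 : ∑ x, ∑ y, (if g x ≠ g y then 1 else 0 : ℕ) ≤
        ∑ a : Ax m, ∑ x : Fin k → Ax m, ∑ b : Ax m, ∑ y : Fin k → Ax m,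
          ((if G a x ≠ G a y then 1 else 0) + (if G a y ≠ G b y then 1 else 0)) := by
      simp only [sum_cons]
      refine Finset.sum_le_sum fun a _ => Finset.sum_le_sum fun x _ => Finset.sum_le_sum fun b _ =>
        Finset.sum_le_sum fun y _ => ?_
      by_cases h1 : G a x = G a y
      · by_cases h2 : G a y = G b y
        · have : g (Fin.cons a x) = g (Fin.cons b y) := h1.trans h2
          simp [this]
        · rw [if_pos h2]; split_ifs <;> omega
      · rw [if_pos h1]; split_ifs <;> omega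
    have h2 : ∑ a : Ax m, ∑ x : Fin k → Ax m, ∑ b : Ax m, ∑ y : Fin k → Ax m,
          ((if G a x ≠ G a y then 1 else 0) + (if G a y ≠ G b y then 1 else 0)) =
        M * ∑ a : Ax m, ∑ x : Fin k → Ax m, ∑ y : Fin k → Ax m,
          (if G a x ≠ G a y then 1 else 0 : ℕ) +
        M ^ k * ∑ y : Fin k → Ax m, ∑ a : Ax m, ∑ b : Ax m,
          (if G a y ≠ G b y then 1 else 0 : ℕ) := by
      have hcM : Fintype.card (Ax m) = M := card_Ax m
      have hcK : Fintype.card (Fin k → Ax m) = M ^ k := by
        rw [Fintype.card_fun, Fintype.card_fin, hcM]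
      simp only [Finset.sum_add_distrib]
      congr 1
      · simp only [Finset.sum_const, Finset.card_univ, hcM, smul_eq_mul]
        simp only [← Finset.mul_sum]
      · rw [Finset.sum_comm (s := (Finset.univ : Finset (Ax m)))
          (t := (Finset.univ : Finset (Fin k → Ax m)))]
        simp only [Finset.sum_const, Finset.card_univ, hcK, smul_eq_mul]
        congr 1
        rw [Finset.sum_comm (s := (Finset.univ : Finset (Fin k → Ax m)))
          (t := (Finset.univ : Finset (Ax m)))]
        refine Finset.sum_congr rfl fun a _ => ?_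
        rw [Finset.sum_comm]
    rw [h2] at h1
    refine h1.trans ?_
    rw [hB]
    have h3 : ∑ a : Ax m, ∑ x : Fin k → Ax m, ∑ y : Fin k → Ax m,
          (if G a x ≠ G a y then 1 else 0 : ℕ) ≤ ∑ a, M ^ (k + 1) * Bdn k m (G a) :=
      Finset.sum_le_sum fun a _ => ih (G a)
    have h4 : ∑ y : Fin k → Ax m, ∑ a : Ax m, ∑ b : Ax m,
          (if G a y ≠ G b y then 1 else 0 : ℕ) ≤
        ∑ y : Fin k → Ax m, M ^ 2 * ∑ a, (if G a y ≠ G (suc a) y then 1 else 0 : ℕ) :=
      Finset.sum_le_sum fun y _ => line_count fun a => G a y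
    rw [← Finset.mul_sum] at h3 h4
    calc _ ≤ M * (M ^ (k + 1) * ∑ a, Bdn k m (G a)) +
          M ^ k * (M ^ 2 * ∑ y : Fin k → Ax m, ∑ a, (if G a y ≠ G (suc a) y then 1 else 0 : ℕ)) :=
          add_le_add (Nat.mul_le_mul_left _ h3) (Nat.mul_le_mul_left _ h4)
      _ = _ := by ring

open Classical in
/-- the number of bonds of the box at which `f` changes -/
noncomputable def chg {k m : ℕ} (f : Bx k m → ℝ) : ℕ :=
  ((Finset.univ : Finset (Bi k m)).filter fun i => f (bs i) ≠ f (bt i)).card

lemma Bdn_le {k m : ℕ} (f : Bx k m → ℝ) : Bdn k m f ≤ chg f := by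
  classical
  unfold Bdn chg
  rw [← Fintype.sum_prod_type' (f := fun (j : Fin k) (x : Fin k → Ax m) =>
    (if f x ≠ f (Function.update x j (suc (x j))) then 1 else 0 : ℕ)), ← Finset.card_filter]
  have hlt : ∀ p ∈ (Finset.univ : Finset (Fin k × (Fin k → Ax m))).filter
      (fun p => f p.2 ≠ f (Function.update p.2 p.1 (suc (p.2 p.1)))), ((p.2 p.1 : Ax m) : ℤ) < m := by
    intro p hp
    rw [Finset.mem_filter] at hp
    by_contra hc
    apply hp.2
    have h1 := Finset.mem_Icc.1 (p.2 p.1).2
    have h2 : suc (p.2 p.1) = p.2 p.1 := by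
      apply Subtype.ext
      simp only [suc]
      omega
    rw [h2, Function.update_eq_self]
  refine (Finset.card_le_card (t := ((Finset.univ : Finset (Bi k m)).filter
    fun i => f (bs i) ≠ f (bt i)).image fun i : Bi k m => ((i.1.2, i.1.1) :
      Fin k × (Fin k → Ax m))) ?_).trans Finset.card_image_le
  intro p hp
  have h := hlt p hp
  rw [Finset.mem_filter] at hp
  rw [Finset.mem_image]
  refine ⟨⟨(p.2, p.1), h⟩, ?_, rfl⟩
  rw [Finset.mem_filter]
  refine ⟨Finset.mem_univ _, ?_⟩
  have h1 : bt (⟨(p.2, p.1), h⟩ : Bi k m) = Function.update p.2 p.1 (suc (p.2 p.1)) := by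
    unfold bt
    congr 1
    apply Subtype.ext
    simp only [suc]
    omega
  rw [h1]
  exact hp.2

/-- **Isoperimetry.** The smaller of the two parts of the box given by `f = r` has at most
`2 (2 m + 1)` times as many points as there are bonds at which `f` changes. -/
theorem iso {k m : ℕ} (f : Bx k m → ℝ) (r : ℝ) :
    min ((Finset.univ : Finset (Bx k m)).filter fun x => f x = r).card
      ((Finset.univ : Finset (Bx k m)).filter fun x => ¬ f x = r).card ≤
        2 * (2 * m + 1) * chg f := by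
  classical
  set A := (Finset.univ : Finset (Bx k m)).filter fun x => f x = r with hA
  set B := (Finset.univ : Finset (Bx k m)).filter fun x => ¬ f x = r with hB
  have hAB : A.card + B.card = (2 * m + 1) ^ k := by
    rw [hA, hB, Finset.card_filter_add_card_filter_not, Finset.card_univ,
      card_Bx2]
  have h1 : A.card * B.card ≤ ∑ x : Bx k m, ∑ y : Bx k m, (if f x ≠ f y then 1 else 0 : ℕ) := by
    rw [← Finset.card_product, ← Fintype.sum_prod_type'
      (f := fun x y : Bx k m => (if f x ≠ f y then 1 else 0 : ℕ)), ← Finset.card_filter]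
    refine Finset.card_le_card fun p hp => ?_
    rw [Finset.mem_product, hA, hB, Finset.mem_filter, Finset.mem_filter] at hp
    rw [Finset.mem_filter]
    refine ⟨Finset.mem_univ _, fun h => hp.2.2 (by rw [← h]; exact hp.1.2)⟩
  have h2 := pairs_le k m f
  have h3 := Bdn_le f
  have h4 : A.card * B.card ≤ (2 * m + 1) ^ (k + 1) * chg f :=
    h1.trans (h2.trans (Nat.mul_le_mul_left _ h3))
  -- the larger part has at least half of the points
  have h5 : min A.card B.card * (2 * m + 1) ^ k ≤ 2 * (A.card * B.card) := by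
    rw [← hAB]
    rcases le_total A.card B.card with h | h
    · rw [min_eq_left h]; nlinarith
    · rw [min_eq_right h]; nlinarith
  have h6 : min A.card B.card * (2 * m + 1) ^ k ≤ (2 * (2 * m + 1) * chg f) * (2 * m + 1) ^ k := by
    refine h5.trans ((Nat.mul_le_mul_left 2 h4).trans (le_of_eq ?_))
    ring
  exact Nat.le_of_mul_le_mul_right h6 (by positivity)

end Run7.h654.EACut
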