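import Pool.Agent.Run7.h654.EACut.Iso
import Mathlib.Analysis.FunctionalSpaces.SobolevInequality

/-!
# The sharp isoperimetric inequality in boxes
-/

set_option autoImplicit false

open Finset MeasureTheory Pool.Agent.TH761.EB
open scoped ENNReal

namespace Run7.h654.EACut

open Classical in
/-- the function to which the grid lines lemma is applied -/
noncomputable def gfun (k m : ℕ) (h : (Fin k → Ax m) → Prop) (x : Fin k → Ax m) : ℝ≥0∞ :=
  (∑ j, if h x ≠ h (Function.update x j (suc (x j))) then 1 else 0) +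
    (if h x then ((2 * m + 1 : ℕ) : ℝ≥0∞)⁻¹ else 0)

lemma gfun_line (k m : ℕ) (h : (Fin k → Ax m) → Prop) {x : Fin k → Ax m} (hx : h x) (i : Fin k) :
    1 ≤ ∑ t : Ax m, gfun k m h (Function.update x i t) := by
  classical
  by_cases hall : ∀ t : Ax m, h (Function.update x i t)
  · have h1 : ∑ _t : Ax m, ((2 * m + 1 : ℕ) : ℝ≥0∞)⁻¹ = 1 := by
      rw [Finset.sum_const, Finset.card_univ, card_Ax, nsmul_eq_mul]
      exact ENNReal.mul_inv_cancel (by exact_mod_cast (by omega : 2 * m + 1 ≠ 0))
        (ENNReal.natCast_ne_top _)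
    rw [← h1]
    refine Finset.sum_le_sum fun t _ => ?_
    unfold gfun
    rw [if_pos (hall t)]
    exact le_add_self
  · have hne : ∃ t : Ax m, h (Function.update x i t) ≠ h (Function.update x i (suc t)) := by
      by_contra hno
      push Not at hno
      apply hall
      intro t
      have := const_of_suc (fun t => h (Function.update x i t)) hno t (x i)
      simp only [Function.update_eq_self] at this
      rw [this]; exact hx
    obtain ⟨t, ht⟩ := hne
    refine le_trans ?_ (Finset.single_le_sum (f := fun t => gfun k m h (Function.update x i t))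
      (fun _ _ => zero_le) (Finset.mem_univ t))
    unfold gfun
    refine le_trans ?_ le_self_add
    refine le_trans ?_ (Finset.single_le_sum (f := fun j =>
      if h (Function.update x i t) ≠ h (Function.update (Function.update x i t) j
        (suc ((Function.update x i t) j))) then (1 : ℝ≥0∞) else 0)
      (fun _ _ => zero_le) (Finset.mem_univ i))
    simp only [Function.update_self, Function.update_idem]
    rw [if_pos ht]

open Classical in
/-- `|S| ^ (k - 1) ≤ (|∂ S| + |S| / (2 m + 1)) ^ k` for parts `S` of the box -/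
theorem grid (k m : ℕ) (hk : 2 ≤ k) (h : (Fin k → Ax m) → Prop) :
    (((Finset.univ : Finset (Fin k → Ax m)).filter h).card : ℝ) ^ (k - 1) ≤
      ((Bdn k m h : ℝ) + (((Finset.univ : Finset (Fin k → Ax m)).filter h).card : ℝ) /
        (2 * m + 1)) ^ k := by
  set s : ℕ := ((Finset.univ : Finset (Fin k → Ax m)).filter h).card with hs
  set f := gfun k m h with hf
  have hk1 : (1 : ℝ) < k := by exact_mod_cast (by omega : 1 < k)
  have hp0 : (0 : ℝ) ≤ 1 / ((k : ℝ) - 1) := by
    have : (0 : ℝ) < (k : ℝ) - 1 := by linarith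
    positivity
  have hpp : (0 : ℝ) < 1 / ((k : ℝ) - 1) := by
    have : (0 : ℝ) < (k : ℝ) - 1 := by linarith
    positivity
  have hp1 : ((Fintype.card (Fin k) : ℝ) - 1) * (1 / ((k : ℝ) - 1)) ≤ 1 := by
    rw [Fintype.card_fin]
    have : (k : ℝ) - 1 ≠ 0 := by linarith
    rw [mul_one_div_cancel this]
  have key := lintegral_mul_prod_lintegral_pow_le (μ := fun _ : Fin k => (Measure.count : Measure (Ax m)))
    hp0 hp1 (f := f) (measurable_of_finite f)
  rw [lintegral_fintype, lintegral_fintype] at key
  have hone : ∀ x : Fin k → Ax m, Measure.pi (fun _ : Fin k => (Measure.count : Measure (Ax m))) {x} = 1 := by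
    intro x
    rw [Measure.pi_singleton]
    simp
  simp only [hone, mul_one, lintegral_fintype, Measure.count_singleton] at key
  have hL : (s : ℝ≥0∞) ≤ ∑ x : Fin k → Ax m, f x ^ (1 - ((Fintype.card (Fin k) : ℝ) - 1) *
      (1 / ((k : ℝ) - 1))) * ∏ i, (∑ t, f (Function.update x i t)) ^ (1 / ((k : ℝ) - 1)) := by
    have h1 : (s : ℝ≥0∞) = ∑ x : Fin k → Ax m, if h x then (1 : ℝ≥0∞) else 0 := by
      rw [hs, Finset.card_filter]; push_cast; rfl
    rw [h1]
    refine Finset.sum_le_sum fun x _ => ?_
    by_cases hx : h x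
    · rw [if_pos hx]
      have h2 : (1 - ((Fintype.card (Fin k) : ℝ) - 1) * (1 / ((k : ℝ) - 1))) = 0 := by
        rw [Fintype.card_fin]
        have : (k : ℝ) - 1 ≠ 0 := by linarith
        rw [mul_one_div_cancel this, sub_self]
      rw [h2, ENNReal.rpow_zero, one_mul]
      refine Finset.one_le_prod' fun i _ => ?_
      exact ENNReal.one_le_rpow (gfun_line k m h hx i) hpp
    · rw [if_neg hx]; exact zero_le
  have hR : ∑ x, f x = ENNReal.ofReal ((Bdn k m h : ℝ) + (s : ℝ) / (2 * m + 1)) := by
    rw [ENNReal.ofReal_add (by positivity) (by positivity), ENNReal.ofReal_natCast,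
      ENNReal.ofReal_div_of_pos (by positivity), ENNReal.ofReal_natCast]
    rw [hf]
    unfold gfun
    rw [Finset.sum_add_distrib]
    congr 1
    · unfold Bdn
      rw [Finset.sum_comm]
      push_cast
      refine Finset.sum_congr rfl fun j _ => Finset.sum_congr rfl fun x _ => ?_
      congr
    · rw [Finset.sum_ite, Finset.sum_const_zero, add_zero, Finset.sum_const, nsmul_eq_mul, ← hs,
        div_eq_mul_inv]
      congr 2
      have : ((2 : ℝ) * m + 1) = ((2 * m + 1 : ℕ) : ℝ) := by push_cast; ring
      rw [this, ENNReal.ofReal_natCast]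
  rw [hR] at key
  have h3 := hL.trans key
  have hx0 : 0 ≤ (Bdn k m h : ℝ) + (s : ℝ) / (2 * m + 1) := by positivity
  rw [ENNReal.ofReal_rpow_of_nonneg hx0 (by positivity), ← ENNReal.ofReal_natCast,
    ENNReal.ofReal_le_ofReal_iff (by positivity)] at h3
  have h4 : (s : ℝ) ^ (k - 1) ≤ (((Bdn k m h : ℝ) + (s : ℝ) / (2 * m + 1)) ^
      (1 + 1 / ((k : ℝ) - 1))) ^ (k - 1) := pow_le_pow_left₀ (by positivity) h3 _
  refine h4.trans (le_of_eq ?_)
  rw [← Real.rpow_natCast, ← Real.rpow_mul hx0, ← Real.rpow_natCast]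
  congr 1
  rw [Nat.cast_sub (by omega)]
  have : (k : ℝ) - 1 ≠ 0 := by linarith
  push_cast
  field_simp
  ring

lemma Bdn_comp (k m : ℕ) {α β : Type} (g : (Fin k → Ax m) → α) (p : α → β) :
    Bdn k m (fun x => p (g x)) ≤ Bdn k m g := by
  classical
  unfold Bdn
  refine Finset.sum_le_sum fun j _ => Finset.sum_le_sum fun x _ => ?_
  by_cases h : g x = g (Function.update x j (suc (x j)))
  · simp only [h, ne_eq, not_true_eq_false, if_false]
    exact le_rfl
  · rw [if_pos h]
    split_ifs <;> omega

lemma real_iso {k : ℕ} (hk : 2 ≤ k) {s x M : ℝ} (hs : 1 ≤ s) (hx : 0 ≤ x) (hM : 0 < M)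
    (hsM : 2 * s ≤ M ^ k) (h : s ^ (k - 1) ≤ (x + s / M) ^ k) :
    s ^ (k - 1) ≤ ((2 * k + 1) * x) ^ k := by
  have hk0 : (0 : ℝ) < k := by exact_mod_cast (by omega : 0 < k)
  set y : ℝ := s / M with hy
  have hy0 : 0 < y := by positivity
  have hsk : 0 < s ^ (k - 1) := by positivity
  have hyk : y ^ k ≤ s ^ (k - 1) / 2 := by
    rw [hy, div_pow, div_le_div_iff₀ (by positivity) (by norm_num)]
    have e1 : s ^ k = s ^ (k - 1) * s := by
      rw [← pow_succ]; congr 1; omega
    rw [e1, mul_assoc]
    apply mul_le_mul_of_nonneg_left _ hsk.le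
    linarith
  have hlt : y ≤ 2 * k * x := by
    by_contra hc
    push Not at hc
    have e1 : x + y ≤ (1 + 1 / (2 * k)) * y := by
      have : x ≤ 1 / (2 * k) * y := by
        rw [one_div, ← div_eq_inv_mul, le_div_iff₀ (by positivity)]
        linarith
      linarith
    have e2 : (x + y) ^ k ≤ (1 + 1 / (2 * k)) ^ k * y ^ k := by
      rw [← mul_pow]
      exact pow_le_pow_left₀ (by positivity) e1 k
    have e3 : (1 + 1 / (2 * (k : ℝ))) ^ k ≤ Real.exp (1 / 2) := by
      have f1 : 1 + 1 / (2 * (k : ℝ)) ≤ Real.exp (1 / (2 * k)) := by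
        linarith [Real.add_one_le_exp (1 / (2 * (k : ℝ)))]
      refine (pow_le_pow_left₀ (by positivity) f1 k).trans (le_of_eq ?_)
      rw [← Real.exp_nat_mul]
      congr 1
      field_simp
    have e4 : Real.exp (1 / 2) < 2 := by
      have f1 : Real.exp (1 / 2) * Real.exp (1 / 2) = Real.exp 1 := by
        rw [← Real.exp_add]; norm_num
      have f2 := Real.exp_one_lt_d9
      nlinarith [Real.exp_pos (1 / 2)]
    have e5 : (1 + 1 / (2 * (k : ℝ))) ^ k * y ^ k ≤ Real.exp (1 / 2) * (s ^ (k - 1) / 2) :=
      mul_le_mul e3 hyk (by positivity) (Real.exp_pos _).le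
    have e6 : Real.exp (1 / 2) * (s ^ (k - 1) / 2) < s ^ (k - 1) := by
      have : Real.exp (1 / 2) * (s ^ (k - 1) / 2) = (Real.exp (1 / 2) / 2) * s ^ (k - 1) := by ring
      rw [this]
      have f3 : Real.exp (1 / 2) / 2 < 1 := by linarith
      exact mul_lt_of_lt_one_left hsk f3
    linarith
  refine h.trans (pow_le_pow_left₀ (by positivity) ?_ k)
  linarith

/-- **Sharp isoperimetry.** -/
theorem iso_pow {k m : ℕ} (hk : 1 ≤ k) (f : Bx k m → ℝ) (r : ℝ)
    (h1 : 1 ≤ min ((Finset.univ : Finset (Bx k m)).filter fun x => f x = r).card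
      ((Finset.univ : Finset (Bx k m)).filter fun x => ¬ f x = r).card) :
    ((min ((Finset.univ : Finset (Bx k m)).filter fun x => f x = r).card
      ((Finset.univ : Finset (Bx k m)).filter fun x => ¬ f x = r).card : ℕ) : ℝ) ^ (k - 1) ≤
        ((2 * k + 1) * (chg f : ℝ)) ^ k := by
  have hAB : ((Finset.univ : Finset (Bx k m)).filter fun x => f x = r).card +
      ((Finset.univ : Finset (Bx k m)).filter fun x => ¬ f x = r).card = (2 * m + 1) ^ k := by
    rw [Finset.card_filter_add_card_filter_not, Finset.card_univ, card_Bx2]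
  rcases Nat.lt_or_ge k 2 with hk2 | hk2
  · have hk1 : k = 1 := by omega
    subst hk1
    have h2 := iso f r
    have h3 : 1 ≤ chg f := by
      by_contra hc
      have : chg f = 0 := by omega
      rw [this, mul_zero] at h2
      omega
    have h4 : (1 : ℝ) ≤ chg f := by exact_mod_cast h3
    simp only [Nat.sub_self, pow_zero, pow_one]
    push_cast
    linarith
  · have key : ∀ (h : (Fin k → Ax m) → Prop) [DecidablePred h],
        (∃ p : ℝ → Prop, h = fun x => p (f x)) →
        1 ≤ ((Finset.univ : Finset (Fin k → Ax m)).filter h).card →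
        2 * ((Finset.univ : Finset (Fin k → Ax m)).filter h).card ≤ (2 * m + 1) ^ k →
        ((((Finset.univ : Finset (Fin k → Ax m)).filter h).card : ℕ) : ℝ) ^ (k - 1) ≤
          ((2 * k + 1) * (chg f : ℝ)) ^ k := by
      intro h inst hp e1 e2
      have hg := grid k m hk2 h
      have hcard : (@Finset.filter _ h (fun a => Classical.propDecidable (h a))
          (Finset.univ : Finset (Fin k → Ax m))).card =
          ((Finset.univ : Finset (Fin k → Ax m)).filter h).card := by congr
      rw [hcard] at hg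
      refine real_iso hk2 (M := 2 * m + 1) (by exact_mod_cast e1) (Nat.cast_nonneg _)
        (by positivity) (by exact_mod_cast e2) ?_
      refine hg.trans ?_
      apply pow_le_pow_left₀ (by positivity)
      obtain ⟨p, rfl⟩ := hp
      have e3 : (Bdn k m (fun x => p (f x)) : ℝ) ≤ chg f := by
        exact_mod_cast (Bdn_comp k m f p).trans (Bdn_le f)
      linarith
    rcases le_total ((Finset.univ : Finset (Bx k m)).filter fun x => f x = r).card
      ((Finset.univ : Finset (Bx k m)).filter fun x => ¬ f x = r).card with hle | hle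
    · rw [min_eq_left hle] at h1 ⊢
      have e2 : 2 * ((Finset.univ : Finset (Bx k m)).filter fun x => f x = r).card ≤
          (2 * m + 1) ^ k := by omega
      exact key (fun x => f x = r) ⟨fun y => y = r, rfl⟩ h1 e2
    · rw [min_eq_right hle] at h1 ⊢
      have e2 : 2 * ((Finset.univ : Finset (Bx k m)).filter fun x => ¬ f x = r).card ≤
          (2 * m + 1) ^ k := by omega
      exact key (fun x => ¬ f x = r) ⟨fun y => ¬ y = r, rfl⟩ h1 e2

end Run7.h654.EACut
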