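import Pool.Agent.Run7.h654.EACut.Pin
import Pool.Agent.TH761.EB.Grow

/-!
# Numerical estimates for short pinning blocks
-/

set_option autoImplicit false

open Finset MeasureTheory ProbabilityTheory Pool.Agent.TH761.EA Pool.Agent.TH761.EB

namespace Run7.h654.EACut

/-- the order of magnitude of the number of bonds of a pinning block -/
noncomputable def phi (k m : ℕ) : ℝ := ((m : ℝ) + 1) ^ (k + 1) * (1 + Real.log ((m : ℝ) + 1))

/-- blocks of half length `L` are pinning in boxes of half width `m` -/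
def Suff (k : ℕ) (c N : ℝ) (m L : ℕ) : Prop :=
  ∃ (ε : ℝ) (w0 T : ℕ), ε * (2 + c / (2 * N)) ≤ c / (2 * N) / 4 ∧ 2 < kap c N m * ε * w0 ∧
    2 * (((2 * m + 1) ^ k : ℕ) : ℝ) < kap c N m * (1 + kap c N m) ^ T ∧ 3 * w0 + 4 * T + 10 < L

theorem length_bound (k : ℕ) {c N : ℝ} (hc : 0 < c) (hcN : c < N) :
    ∃ K : ℝ, 0 < K ∧ ∀ m : ℕ, ∃ L : ℕ, Suff k c N m L ∧
      2 * (L : ℝ) + 2 ≤ K * (((m : ℝ) + 1) * (1 + Real.log ((m : ℝ) + 1))) := by
  have hN : 0 < N := hc.trans hcN
  set κ1 : ℝ := c / (4 * N) with hκ1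
  have hκ1p : 0 < κ1 := by positivity
  have hκ1l : κ1 ≤ 1 / 4 := by
    rw [hκ1, div_le_div_iff₀ (by positivity) (by norm_num)]
    linarith
  set ε : ℝ := c / (2 * N) / 4 / (2 + c / (2 * N)) with hε
  have hεp : 0 < ε := by positivity
  have hε1 : ε * (2 + c / (2 * N)) ≤ c / (2 * N) / 4 := by
    rw [hε, div_mul_cancel₀]
    have : 0 < 2 + c / (2 * N) := by positivity
    exact this.ne'
  set Ky : ℝ := (k + 2) * Real.log 2 + (k + 1) + Real.log (1 / κ1) with hKy
  have hlog2 : 0 < Real.log 2 := Real.log_pos (by norm_num)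
  have hlogκ : 0 < Real.log (1 / κ1) := Real.log_pos (by
    rw [lt_div_iff₀ hκ1p]; linarith)
  have hKyp : 0 < Ky := by positivity
  set Kw : ℝ := 4 / (κ1 * ε) + 1 with hKw
  set KT : ℝ := 4 / κ1 * Ky + 1 with hKT
  have hKwp : 0 < Kw := by positivity
  have hKTp : 0 < KT := by positivity
  refine ⟨6 * Kw + 8 * KT + 24, by positivity, fun m => ?_⟩
  set x : ℝ := (m : ℝ) + 1 with hx
  have hm0 : (0 : ℝ) ≤ m := Nat.cast_nonneg m
  have hx1 : 1 ≤ x := by linarith
  have hlx : 0 ≤ Real.log x := Real.log_nonneg hx1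
  have hxl : 1 ≤ x * (1 + Real.log x) := one_le_mul_of_one_le_of_one_le hx1 (by linarith)
  have hM : (2 * (m : ℝ) + 1) ≤ 2 * x := by linarith
  have hMp : (0 : ℝ) < 2 * (m : ℝ) + 1 := by positivity
  set κ : ℝ := kap c N m with hκ
  have hκe : κ = κ1 / (2 * m + 1) := by
    rw [hκ, hκ1]; unfold kap
    rw [div_div]
  have hκp : 0 < κ := by rw [hκe]; positivity
  have hκl : κ ≤ 1 / 4 := by
    rw [hκe]
    refine (div_le_self hκ1p.le (by linarith)).trans hκ1l
  have hinv : 1 / κ ≤ 2 / κ1 * x := by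
    rw [hκe, one_div_div, div_mul_eq_mul_div]
    exact div_le_div_of_nonneg_right hM hκ1p.le
  -- `w0`
  set w0 : ℕ := ⌊2 / (κ * ε)⌋₊ + 1 with hw0
  have w1 : 2 / (κ * ε) < w0 := by rw [hw0]; push_cast; exact Nat.lt_floor_add_one _
  have w2 : (w0 : ℝ) ≤ Kw * x := by
    have e1 : (w0 : ℝ) ≤ 2 / (κ * ε) + 1 := by
      rw [hw0]; push_cast
      have := Nat.floor_le (show 0 ≤ 2 / (κ * ε) by positivity)
      linarith
    have e2 : 2 / (κ * ε) = 2 / ε * (1 / κ) := by field_simp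
    have e3 : 2 / ε * (1 / κ) ≤ 2 / ε * (2 / κ1 * x) :=
      mul_le_mul_of_nonneg_left hinv (by positivity)
    have e4 : 2 / ε * (2 / κ1 * x) = 4 / (κ1 * ε) * x := by field_simp; ring
    have e5 : Kw * x = 4 / (κ1 * ε) * x + x := by rw [hKw]; ring
    linarith
  have w3 : 2 < κ * ε * w0 := by
    rw [div_lt_iff₀ (by positivity)] at w1
    linarith
  -- `T`
  set A : ℝ := 2 * (((2 * m + 1) ^ k : ℕ) : ℝ) * (1 / κ) with hA
  have hAp : 0 < A := by positivity
  have hlogA : Real.log A ≤ Ky * (1 + Real.log x) := by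
    have e1 : A ≤ 2 * (2 * x) ^ k * (2 / κ1 * x) := by
      rw [hA]
      apply mul_le_mul _ hinv (by positivity) (by positivity)
      apply mul_le_mul_of_nonneg_left _ (by norm_num)
      push_cast
      exact pow_le_pow_left₀ hMp.le hM k
    have e2 : 2 * (2 * x) ^ k * (2 / κ1 * x) = 2 * (2 * x) ^ (k + 1) * (1 / κ1) := by ring
    rw [e2] at e1
    have e3 := Real.log_le_log hAp e1
    have e3' : Real.log (2 * (2 * x) ^ (k + 1) * (1 / κ1)) =
        Real.log 2 + ((k : ℝ) + 1) * (Real.log 2 + Real.log x) + Real.log (1 / κ1) := by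
      rw [Real.log_mul (by positivity) (by positivity), Real.log_mul (by positivity)
        (by positivity), Real.log_pow, Real.log_mul (by positivity) (by positivity)]
      push_cast
      ring
    rw [e3'] at e3
    rw [hKy]
    have e4 : 0 ≤ ((k : ℝ) + 2) * Real.log 2 * Real.log x := by positivity
    have e5 : 0 ≤ Real.log (1 / κ1) * Real.log x := by positivity
    have e6 : ((k + 2) * Real.log 2 + (k + 1) + Real.log (1 / κ1)) * (1 + Real.log x) =
        (Real.log 2 + ((k : ℝ) + 1) * (Real.log 2 + Real.log x) + Real.log (1 / κ1)) +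
        (((k : ℝ) + 2) * Real.log 2 * Real.log x + Real.log (1 / κ1) * Real.log x +
          ((k : ℝ) + 1)) := by ring
    rw [e6]
    have hk0 : (0 : ℝ) ≤ k := Nat.cast_nonneg k
    linarith
  set y : ℝ := Ky * (1 + Real.log x) with hy
  have hyp : 0 < y := by positivity
  set T : ℕ := ⌊2 * y / κ⌋₊ + 1 with hT
  have t1 : 2 * y / κ < T := by rw [hT]; push_cast; exact Nat.lt_floor_add_one _
  have t2 : (T : ℝ) ≤ KT * (x * (1 + Real.log x)) := by
    have e1 : (T : ℝ) ≤ 2 * y / κ + 1 := by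
      rw [hT]; push_cast
      have := Nat.floor_le (show 0 ≤ 2 * y / κ by positivity)
      linarith
    have e2 : 2 * y / κ = 2 * y * (1 / κ) := by ring
    have e3 : 2 * y * (1 / κ) ≤ 2 * y * (2 / κ1 * x) :=
      mul_le_mul_of_nonneg_left hinv (by positivity)
    have e4 : 2 * y * (2 / κ1 * x) = 4 / κ1 * Ky * (x * (1 + Real.log x)) := by rw [hy]; ring
    have e6 : KT * (x * (1 + Real.log x)) =
      4 / κ1 * Ky * (x * (1 + Real.log x)) + x * (1 + Real.log x) := by rw [hKT]; ring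
    linarith
  have t3 : A < (1 + κ) ^ T := by
    have e1 : κ / 2 ≤ Real.log (1 + κ) := by
      refine le_trans ?_ (Real.le_log_one_add_of_nonneg hκp.le)
      rw [div_le_div_iff₀ (by norm_num) (by positivity)]
      have e0 : κ * κ ≤ κ * 1 := mul_le_mul_of_nonneg_left (by linarith) hκp.le
      linarith
    have e2 : y < T * Real.log (1 + κ) := by
      rw [div_lt_iff₀ hκp] at t1
      have e3 : (T : ℝ) * (κ / 2) ≤ T * Real.log (1 + κ) :=
        mul_le_mul_of_nonneg_left e1 (Nat.cast_nonneg _)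
      linarith
    have e4 : (1 + κ) ^ T = Real.exp (T * Real.log (1 + κ)) := by
      rw [Real.exp_nat_mul, Real.exp_log (by positivity)]
    rw [e4, ← Real.log_lt_iff_lt_exp hAp]
    linarith
  have t4 : 2 * (((2 * m + 1) ^ k : ℕ) : ℝ) < κ * (1 + κ) ^ T := by
    have e1 : 2 * (((2 * m + 1) ^ k : ℕ) : ℝ) = κ * A := by
      rw [hA]; field_simp
    rw [e1]
    exact mul_lt_mul_of_pos_left t3 hκp
  refine ⟨3 * w0 + 4 * T + 11, ⟨ε, w0, T, hε1, w3, t4, by omega⟩, ?_⟩
  push_cast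
  have e2 : x ≤ x * (1 + Real.log x) := le_mul_of_one_le_right (by linarith) (by linarith)
  have e3 : Kw * x ≤ Kw * (x * (1 + Real.log x)) := mul_le_mul_of_nonneg_left e2 hKwp.le
  have e4 : (6 * Kw + 8 * KT + 24) * (x * (1 + Real.log x)) = 6 * (Kw * (x * (1 + Real.log x))) +
    8 * (KT * (x * (1 + Real.log x))) + 24 * (x * (1 + Real.log x)) := by ring
  rw [e4]
  linarith

theorem numeric2 (k : ℕ) {c N δ : ℝ} (hc : 0 < c) (hcN : c < N) (hδ : 0 < δ) (hδ1 : δ ≤ 1)
    (t : ℕ) : ∃ C : ℝ, ∀ m : ℕ, ∃ L M : ℕ, Suff k c N m L ∧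
      (t : ℝ) ≤ M * δ ^ ((2 * L + 2) * Fintype.card (Bx k m ⊕ Bi k m)) ∧
      ((M : ℝ) + 2) * (2 * L + 2) ≤ Real.exp (C * phi k m) := by
  obtain ⟨K, hK, hKb⟩ := length_bound k hc hcN
  set lam : ℝ := -Real.log δ with hlam
  have hlam0 : 0 ≤ lam := by
    have := Real.log_nonpos hδ.le hδ1
    linarith
  set K2 : ℝ := K * ((1 + k) * 2 ^ k) with hK2
  set K3 : ℝ := (t + 3) * K with hK3
  refine ⟨lam * K2 + 1 + K3, fun m => ?_⟩
  obtain ⟨L, hL, hq⟩ := hKb m
  set x : ℝ := (m : ℝ) + 1 with hx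
  have hx1 : 1 ≤ x := by
    have : (0 : ℝ) ≤ m := Nat.cast_nonneg m
    linarith
  have hlx : 0 ≤ Real.log x := Real.log_nonneg hx1
  set u : ℝ := phi k m with hu
  have hue : u = x ^ k * (x * (1 + Real.log x)) := by
    rw [hu]; unfold phi; rw [← hx]; ring
  have hxk : 1 ≤ x ^ k := one_le_pow₀ hx1
  have hxl : 1 ≤ x * (1 + Real.log x) := one_le_mul_of_one_le_of_one_le hx1 (by linarith)
  have hu1 : 1 ≤ u := by rw [hue]; exact one_le_mul_of_one_le_of_one_le hxk hxl
  have hvu : x * (1 + Real.log x) ≤ u := by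
    rw [hue]; exact le_mul_of_one_le_left (by positivity) hxk
  have hbx : ((2 * m + 1 : ℕ) : ℝ) ^ k ≤ 2 ^ k * x ^ k := by
    rw [← mul_pow]
    apply pow_le_pow_left₀ (by positivity)
    push_cast; linarith
  have hcard : (Fintype.card (Bx k m ⊕ Bi k m) : ℝ) ≤ (1 + k) * (2 ^ k * x ^ k) := by
    have h1 : Fintype.card (Bx k m ⊕ Bi k m) ≤ (2 * m + 1) ^ k * (1 + k) := by
      rw [Fintype.card_sum, card_Bx]
      have := card_Bi k m
      linarith
    have h2 : (Fintype.card (Bx k m ⊕ Bi k m) : ℝ) ≤ ((2 * m + 1 : ℕ) : ℝ) ^ k * (1 + k) := by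
      exact_mod_cast h1
    have h3 : ((2 * m + 1 : ℕ) : ℝ) ^ k * (1 + k) ≤ (2 ^ k * x ^ k) * (1 + k) :=
      mul_le_mul_of_nonneg_right hbx (by positivity)
    linarith
  set n : ℕ := (2 * L + 2) * Fintype.card (Bx k m ⊕ Bi k m) with hn
  have hn1 : (n : ℝ) ≤ K2 * u := by
    have h1 : (n : ℝ) = (2 * (L : ℝ) + 2) * Fintype.card (Bx k m ⊕ Bi k m) := by
      rw [hn]; push_cast; ring
    rw [h1]
    refine (mul_le_mul hq hcard (by positivity) (by positivity)).trans (le_of_eq ?_)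
    rw [hK2, hue]; ring
  have hpe : Real.exp (-(lam * K2 * u)) ≤ δ ^ n := by
    have h1 : δ ^ n = Real.exp (-(lam * n)) := by
      rw [hlam, neg_mul, neg_neg, mul_comm, Real.exp_nat_mul, Real.exp_log hδ]
    rw [h1]
    apply Real.exp_le_exp.2
    have := mul_le_mul_of_nonneg_left hn1 hlam0
    linarith
  set M : ℕ := ⌈(t : ℝ) * Real.exp (lam * K2 * u)⌉₊ with hM
  have hM1 : (t : ℝ) * Real.exp (lam * K2 * u) ≤ M := Nat.le_ceil _
  have hM2 : (M : ℝ) < (t : ℝ) * Real.exp (lam * K2 * u) + 1 := Nat.ceil_lt_add_one (by positivity)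
  refine ⟨L, M, hL, ?_, ?_⟩
  · have h1 : (t : ℝ) = t * Real.exp (lam * K2 * u) * Real.exp (-(lam * K2 * u)) := by
      rw [mul_assoc, ← Real.exp_add, add_neg_cancel, Real.exp_zero, mul_one]
    rw [h1]
    exact mul_le_mul hM1 hpe (Real.exp_pos _).le (Nat.cast_nonneg _)
  · have hE : 1 ≤ Real.exp (lam * K2 * u) := Real.one_le_exp (by positivity)
    have h1 : (M : ℝ) + 2 ≤ (t + 3) * Real.exp (lam * K2 * u) := by nlinarith
    have h2 : 2 * (L : ℝ) + 2 ≤ K * Real.exp u := by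
      refine hq.trans ?_
      apply mul_le_mul_of_nonneg_left _ (by positivity)
      exact hvu.trans (by linarith [Real.add_one_le_exp u])
    have h3 : K3 ≤ Real.exp (K3 * u) := by
      have hK3p : 0 ≤ K3 := by positivity
      have h4 : K3 * 1 ≤ K3 * u := mul_le_mul_of_nonneg_left hu1 hK3p
      linarith [Real.add_one_le_exp (K3 * u)]
    calc ((M : ℝ) + 2) * (2 * L + 2)
        ≤ ((t + 3) * Real.exp (lam * K2 * u)) * (K * Real.exp u) :=
          mul_le_mul h1 h2 (by positivity) (by positivity)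
      _ = K3 * (Real.exp (lam * K2 * u) * Real.exp u) := by rw [hK3]; ring
      _ ≤ Real.exp (K3 * u) * (Real.exp (lam * K2 * u) * Real.exp u) :=
          mul_le_mul_of_nonneg_right h3 (by positivity)
      _ = Real.exp ((lam * K2 + 1 + K3) * u) := by
          rw [← Real.exp_add, ← Real.exp_add]
          congr 1
          ring

end Run7.h654.EACut
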