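import Pool.Agent.Run7.h654.EACut.PinP
import Pool.Agent.Run7.h654.EACut.Num

/-!
# Numerical estimates for pinning blocks of linear length
-/

set_option autoImplicit false

open Finset MeasureTheory ProbabilityTheory Pool.Agent.TH761.EA Pool.Agent.TH761.EB

namespace Run7.h654.EACut

/-- the order of magnitude of the number of bonds of a pinning block -/
noncomputable def phiP (k m : ℕ) : ℝ := ((m : ℝ) + 1) ^ (k + 1)

/-- blocks of half length `L` are pinning in boxes of half width `m` -/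
def SuffP (k : ℕ) (c N : ℝ) (m L : ℕ) : Prop :=
  ∃ (ε : ℝ) (w0 T : ℕ), ε * (2 + c / (2 * N)) ≤ c / (2 * N) / 4 ∧ 2 < kap c N m * ε * w0 ∧
    2 * (((2 * m + 1) ^ k : ℕ) : ℝ) < c / (2 * N) * (cst k c N * (T + 1)) ^ k ∧
    3 * w0 + 4 * T + 10 < L

theorem length_boundP {k : ℕ} (hk : 1 ≤ k) {c N : ℝ} (hc : 0 < c) (hcN : c < N) :
    ∃ K : ℝ, 0 < K ∧ ∀ m : ℕ, ∃ L : ℕ, SuffP k c N m L ∧
      2 * (L : ℝ) + 2 ≤ K * ((m : ℝ) + 1) := by
  have hN : 0 < N := hc.trans hcN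
  set κ1 : ℝ := c / (4 * N) with hκ1
  have hκ1p : 0 < κ1 := by positivity
  set κ2 : ℝ := c / (2 * N) with hκ2
  have hκ2p : 0 < κ2 := by positivity
  have hκ2l : κ2 ≤ 1 := half_lt hc hcN
  set ε : ℝ := c / (2 * N) / 4 / (2 + c / (2 * N)) with hε
  have hεp : 0 < ε := by positivity
  have hε1 : ε * (2 + c / (2 * N)) ≤ c / (2 * N) / 4 := by
    rw [hε, div_mul_cancel₀]
    have : 0 < 2 + c / (2 * N) := by positivity
    exact this.ne'
  set g : ℝ := cst k c N with hg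
  have hgp : 0 < g := cst_pos hk hc hcN
  set D : ℝ := 2 / κ2 with hD
  have hDp : 0 < D := by positivity
  have hD1 : 1 ≤ D := by
    rw [hD, le_div_iff₀ hκ2p]; linarith
  set Kw : ℝ := 4 / (κ1 * ε) + 1 with hKw
  set KT : ℝ := 2 * D / g + 1 with hKT
  have hKwp : 0 < Kw := by positivity
  have hKTp : 0 < KT := by positivity
  refine ⟨6 * Kw + 8 * KT + 24, by positivity, fun m => ?_⟩
  set x : ℝ := (m : ℝ) + 1 with hx
  have hm0 : (0 : ℝ) ≤ m := Nat.cast_nonneg m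
  have hx1 : 1 ≤ x := by linarith
  have hM : (2 * (m : ℝ) + 1) ≤ 2 * x := by linarith
  have hMp : (0 : ℝ) < 2 * (m : ℝ) + 1 := by positivity
  set κ : ℝ := kap c N m with hκ
  have hκe : κ = κ1 / (2 * m + 1) := by
    rw [hκ, hκ1]; unfold kap
    rw [div_div]
  have hκp : 0 < κ := by rw [hκe]; positivity
  have hinv : 1 / κ ≤ 2 / κ1 * x := by
    rw [hκe, one_div_div, div_mul_eq_mul_div]
    exact div_le_div_of_nonneg_right hM hκ1p.le
  -- `w0`
  set w0 : ℕ := ⌊2 / (κ * ε)⌋₊ + 1 with hw0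
  have w1 : 2 / (κ * ε) < w0 := by rw [hw0]; push_cast; exact Nat.lt_floor_add_one _
  have w2 : (w0 : ℝ) ≤ Kw * x := by
    have e1 : (w0 : ℝ) ≤ 2 / (κ * ε) + 1 := by
      rw [hw0]; push_cast
      have := Nat.floor_le (show 0 ≤ 2 / (κ * ε) by positivity)
      linarith
    have e2 : 2 / (κ * ε) = 2 / ε * (1 / κ) := by field_simp
    have e3 : 2 / ε * (1 / κ) ≤ 2 / ε * (2 / κ1 * x) :=
      mul_le_mul_of_nonneg_left hinv (by positivity)
    have e4 : 2 / ε * (2 / κ1 * x) = 4 / (κ1 * ε) * x := by field_simp; ring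
    have e5 : Kw * x = 4 / (κ1 * ε) * x + x := by rw [hKw]; ring
    linarith
  have w3 : 2 < κ * ε * w0 := by
    rw [div_lt_iff₀ (by positivity)] at w1
    linarith
  -- `T`
  set T : ℕ := ⌊D * (2 * x) / g⌋₊ + 1 with hT
  have t1 : D * (2 * x) / g < T := by rw [hT]; push_cast; exact Nat.lt_floor_add_one _
  have t2 : (T : ℝ) ≤ KT * x := by
    have e1 : (T : ℝ) ≤ D * (2 * x) / g + 1 := by
      rw [hT]; push_cast
      have := Nat.floor_le (show 0 ≤ D * (2 * x) / g by positivity)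
      linarith
    have e2 : KT * x = D * (2 * x) / g + x := by rw [hKT]; ring
    linarith
  have t3 : D * (2 * x) < g * (T + 1) := by
    rw [div_lt_iff₀ hgp] at t1
    linarith
  have t4 : 2 * (((2 * m + 1) ^ k : ℕ) : ℝ) < κ2 * (g * (T + 1)) ^ k := by
    have e1 : (D * (2 * x)) ^ k < (g * (T + 1)) ^ k :=
      pow_lt_pow_left₀ t3 (by positivity) (by omega)
    have e2 : κ2 * (D * (2 * x)) ^ k < κ2 * (g * (T + 1)) ^ k := mul_lt_mul_of_pos_left e1 hκ2p
    refine lt_of_le_of_lt ?_ e2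
    rw [mul_pow]
    have e3 : D ≤ D ^ k := le_self_pow₀ hD1 (by omega)
    have e4 : κ2 * D = 2 := by rw [hD]; field_simp
    have e5 : 2 ≤ κ2 * D ^ k := by
      rw [← e4]; exact mul_le_mul_of_nonneg_left e3 hκ2p.le
    have e6 : (((2 * m + 1) ^ k : ℕ) : ℝ) ≤ (2 * x) ^ k := by
      push_cast
      exact pow_le_pow_left₀ hMp.le hM k
    calc 2 * (((2 * m + 1) ^ k : ℕ) : ℝ) ≤ 2 * (2 * x) ^ k :=
          mul_le_mul_of_nonneg_left e6 (by norm_num)
      _ ≤ (κ2 * D ^ k) * (2 * x) ^ k := mul_le_mul_of_nonneg_right e5 (by positivity)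
      _ = κ2 * (D ^ k * (2 * x) ^ k) := by ring
  refine ⟨3 * w0 + 4 * T + 11, ⟨ε, w0, T, hε1, w3, t4, by omega⟩, ?_⟩
  push_cast
  have e4 : (6 * Kw + 8 * KT + 24) * x = 6 * (Kw * x) + 8 * (KT * x) + 24 * x := by ring
  rw [e4]
  linarith

theorem numericP {k : ℕ} (hk : 1 ≤ k) {c N δ : ℝ} (hc : 0 < c) (hcN : c < N) (hδ : 0 < δ)
    (hδ1 : δ ≤ 1) (t : ℕ) : ∃ C : ℝ, ∀ m : ℕ, ∃ L M : ℕ, SuffP k c N m L ∧
      (t : ℝ) ≤ M * δ ^ ((2 * L + 2) * Fintype.card (Bx k m ⊕ Bi k m)) ∧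
      ((M : ℝ) + 2) * (2 * L + 2) ≤ Real.exp (C * phiP k m) := by
  obtain ⟨K, hK, hKb⟩ := length_boundP hk hc hcN
  set lam : ℝ := -Real.log δ with hlam
  have hlam0 : 0 ≤ lam := by
    have := Real.log_nonpos hδ.le hδ1
    linarith
  set K2 : ℝ := K * ((1 + k) * 2 ^ k) with hK2
  set K3 : ℝ := (t + 3) * K with hK3
  refine ⟨lam * K2 + 1 + K3, fun m => ?_⟩
  obtain ⟨L, hL, hq⟩ := hKb m
  set x : ℝ := (m : ℝ) + 1 with hx
  have hx1 : 1 ≤ x := by
    have : (0 : ℝ) ≤ m := Nat.cast_nonneg m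
    linarith
  set u : ℝ := phiP k m with hu
  have hue : u = x ^ k * x := by
    rw [hu]; unfold phiP; rw [← hx]; ring
  have hxk : 1 ≤ x ^ k := one_le_pow₀ hx1
  have hu1 : 1 ≤ u := by rw [hue]; exact one_le_mul_of_one_le_of_one_le hxk hx1
  have hvu : x ≤ u := by
    rw [hue]; exact le_mul_of_one_le_left (by positivity) hxk
  have hbx : ((2 * m + 1 : ℕ) : ℝ) ^ k ≤ 2 ^ k * x ^ k := by
    rw [← mul_pow]
    apply pow_le_pow_left₀ (by positivity)
    push_cast; linarith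
  have hcard : (Fintype.card (Bx k m ⊕ Bi k m) : ℝ) ≤ (1 + k) * (2 ^ k * x ^ k) := by
    have h1 : Fintype.card (Bx k m ⊕ Bi k m) ≤ (2 * m + 1) ^ k * (1 + k) := by
      rw [Fintype.card_sum, card_Bx]
      have := card_Bi k m
      linarith
    have h2 : (Fintype.card (Bx k m ⊕ Bi k m) : ℝ) ≤ ((2 * m + 1 : ℕ) : ℝ) ^ k * (1 + k) := by
      exact_mod_cast h1
    have h3 : ((2 * m + 1 : ℕ) : ℝ) ^ k * (1 + k) ≤ (2 ^ k * x ^ k) * (1 + k) :=
      mul_le_mul_of_nonneg_right hbx (by positivity)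
    linarith
  set n : ℕ := (2 * L + 2) * Fintype.card (Bx k m ⊕ Bi k m) with hn
  have hn1 : (n : ℝ) ≤ K2 * u := by
    have h1 : (n : ℝ) = (2 * (L : ℝ) + 2) * Fintype.card (Bx k m ⊕ Bi k m) := by
      rw [hn]; push_cast; ring
    rw [h1]
    refine (mul_le_mul hq hcard (by positivity) (by positivity)).trans (le_of_eq ?_)
    rw [hK2, hue]; ring
  have hpe : Real.exp (-(lam * K2 * u)) ≤ δ ^ n := by
    have h1 : δ ^ n = Real.exp (-(lam * n)) := by
      rw [hlam, neg_mul, neg_neg, mul_comm, Real.exp_nat_mul, Real.exp_log hδ]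
    rw [h1]
    apply Real.exp_le_exp.2
    have := mul_le_mul_of_nonneg_left hn1 hlam0
    linarith
  set M : ℕ := ⌈(t : ℝ) * Real.exp (lam * K2 * u)⌉₊ with hM
  have hM1 : (t : ℝ) * Real.exp (lam * K2 * u) ≤ M := Nat.le_ceil _
  have hM2 : (M : ℝ) < (t : ℝ) * Real.exp (lam * K2 * u) + 1 := Nat.ceil_lt_add_one (by positivity)
  refine ⟨L, M, hL, ?_, ?_⟩
  · have h1 : (t : ℝ) = t * Real.exp (lam * K2 * u) * Real.exp (-(lam * K2 * u)) := by
      rw [mul_assoc, ← Real.exp_add, add_neg_cancel, Real.exp_zero, mul_one]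
    rw [h1]
    exact mul_le_mul hM1 hpe (Real.exp_pos _).le (Nat.cast_nonneg _)
  · have hE : 1 ≤ Real.exp (lam * K2 * u) := Real.one_le_exp (by positivity)
    have h1 : (M : ℝ) + 2 ≤ (t + 3) * Real.exp (lam * K2 * u) := by nlinarith
    have h2 : 2 * (L : ℝ) + 2 ≤ K * Real.exp u := by
      refine hq.trans ?_
      apply mul_le_mul_of_nonneg_left _ (by positivity)
      exact hvu.trans (by linarith [Real.add_one_le_exp u])
    have h3 : K3 ≤ Real.exp (K3 * u) := by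
      have hK3p : 0 ≤ K3 := by positivity
      have h4 : K3 * 1 ≤ K3 * u := mul_le_mul_of_nonneg_left hu1 hK3p
      linarith [Real.add_one_le_exp (K3 * u)]
    calc ((M : ℝ) + 2) * (2 * L + 2)
        ≤ ((t + 3) * Real.exp (lam * K2 * u)) * (K * Real.exp u) :=
          mul_le_mul h1 h2 (by positivity) (by positivity)
      _ = K3 * (Real.exp (lam * K2 * u) * Real.exp u) := by rw [hK3]; ring
      _ ≤ Real.exp (K3 * u) * (Real.exp (lam * K2 * u) * Real.exp u) :=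
          mul_le_mul_of_nonneg_right h3 (by positivity)
      _ = Real.exp ((lam * K2 + 1 + K3) * u) := by
          rw [← Real.exp_add, ← Real.exp_add]
          congr 1
          ring

end Run7.h654.EACut
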