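import Pool.Agent.Run7.h654.EACut.Pin
import Pool.Agent.Run7.h654.EACut.AbsP
import Pool.Agent.Run7.h654.EACut.IsoP

/-!
# Uniform columns in short ferromagnetic blocks, pinned columns
-/

set_option autoImplicit false

open Finset Pool.Agent.TH761.EA Pool.Agent.TH761.EB

namespace Run7.h654.EACut

/-- the rate of the linear growth of `energy ^ (1 / k)` -/
noncomputable def cst (k : ℕ) (b0 b1 : ℝ) : ℝ :=
  b0 / (2 * b1) / ((k : ℝ) * 2 ^ k * (2 * k + 1))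

lemma cst_pos {k : ℕ} (hk : 1 ≤ k) {b0 b1 : ℝ} (hb0 : 0 < b0) (hb1 : b0 < b1) :
    0 < cst k b0 b1 := by
  have h1 : (0 : ℝ) < k := by exact_mod_cast hk
  have h2 : 0 < b1 := hb0.trans hb1
  unfold cst
  positivity

lemma half_lt {b0 b1 : ℝ} (hb0 : 0 < b0) (hb1 : b0 < b1) : b0 / (2 * b1) ≤ 1 := by
  have h2 : 0 < b1 := hb0.trans hb1
  rw [div_le_one (by positivity)]
  linarith

lemma cst_le {k : ℕ} (hk : 1 ≤ k) {b0 b1 : ℝ} (hb0 : 0 < b0) (hb1 : b0 < b1) :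
    cst k b0 b1 ≤ 1 := by
  have h1 : (1 : ℝ) ≤ k := by exact_mod_cast hk
  have h2 : 0 < b1 := hb0.trans hb1
  have h3 : (1 : ℝ) ≤ (k : ℝ) * 2 ^ k * (2 * k + 1) :=
    one_le_mul_of_one_le_of_one_le
      (one_le_mul_of_one_le_of_one_le h1 (one_le_pow₀ (by norm_num))) (by linarith)
  unfold cst
  exact (div_le_self (by positivity) h3).trans (half_lt hb0 hb1)

theorem exists_uniform3 {k m : ℕ} (hk : 1 ≤ k) {J : ℤ × (Bx k m ⊕ Bi k m) → ℝ} {σ : ℤ × Bx k m → ℝ} {P Q : ℤ}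
    (h : GrOn (bs : Bi k m → Bx k m) bt J σ P Q) {b0 b1 : ℝ} (hb0 : 0 < b0) (hb1 : b0 < b1)
    {p q : ℤ} (hJ : ∀ n ∈ Ico p q, ∀ c, b0 < J (n, c) ∧ J (n, c) < b1) (hP : P ≤ p) (hQ : q ≤ Q)
    {ε : ℝ} (hε : ε * (2 + b0 / (2 * b1)) ≤ b0 / (2 * b1) / 4) (w0 T : ℕ)
    (hw0 : 2 < kap b0 b1 m * ε * w0)
    (hT : 2 * (((2 * m + 1) ^ k : ℕ) : ℝ) < b0 / (2 * b1) * (cst k b0 b1 * (T + 1)) ^ k)
    (hlen : 3 * w0 + 4 * T + 10 < q - p) :
    ∃ n, p ≤ n ∧ n ≤ q ∧ ∀ x y, σ (n, x) = σ (n, y) := by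
  classical
  obtain ⟨K, rfl⟩ : ∃ K, k = K + 1 := ⟨k - 1, by omega⟩
  by_contra hcon
  push Not at hcon
  have hb1p : 0 < b1 := hb0.trans hb1
  set κ : ℝ := kap b0 b1 m with hκ
  have hκp : 0 < κ := by rw [hκ]; unfold kap; positivity
  set κ2 : ℝ := b0 / (2 * b1) with hκ2
  have hκ2p : 0 < κ2 := by positivity
  have hκκ : κ * (2 * (2 * m + 1)) = κ2 := by
    rw [hκ, hκ2]; unfold kap; field_simp; ring
  have hcardm : ∀ n, ((Finset.univ : Finset (Bx (K + 1) m)).filter fun x => σ (n, x) = 1).card =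
      dev σ (-1) n := by
    intro n
    unfold dev
    congr 1
    ext x
    rw [Finset.mem_filter, Finset.mem_filter]
    rcases h.1 (n, x) with e | e <;> rw [e] <;> norm_num
  have hsumN : ∀ n, dev σ 1 n + dev σ (-1) n = (2 * m + 1) ^ (K + 1) := by
    intro n
    rw [← hcardm, ← card_Bx2 (K + 1) m, ← Finset.card_univ,
      ← Finset.card_filter_add_card_filter_not (s := (Finset.univ : Finset (Bx (K + 1) m)))
        (fun x => σ (n, x) = 1), add_comm]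
    rfl
  have hmin : ∀ n, min (dev σ 1 n) (dev σ (-1) n) ≤ 2 * (2 * m + 1) * chn bs bt σ n := by
    intro n
    have h1 := iso (fun x : Bx (K + 1) m => σ (n, x)) 1
    rw [hcardm n, min_comm] at h1
    exact h1
  have h1n : ∀ n, p ≤ n → n ≤ q → 1 ≤ min (dev σ 1 n) (dev σ (-1) n) := by
    intro n e1 e2
    obtain ⟨x, y, hxy⟩ := hcon n e1 e2
    have key : ∃ u v, σ (n, u) = 1 ∧ σ (n, v) = -1 := by
      rcases h.1 (n, x) with e | e <;> rcases h.1 (n, y) with e' | e'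
      · exact absurd (e.trans e'.symm) hxy
      · exact ⟨x, y, e, e'⟩
      · exact ⟨y, x, e', e⟩
      · exact absurd (e.trans e'.symm) hxy
    obtain ⟨u, v, hu, hv⟩ := key
    refine le_min ?_ ?_
    · refine Finset.card_pos.2 ⟨v, ?_⟩
      rw [Finset.mem_filter, hv]; norm_num
    · refine Finset.card_pos.2 ⟨u, ?_⟩
      rw [Finset.mem_filter, hu]; norm_num
  have hdn : ∀ n, p ≤ n → n ≤ q → ((min (dev σ 1 n) (dev σ (-1) n) : ℕ) : ℝ) ^ K ≤
      ((2 * ((K + 1 : ℕ) : ℝ) + 1) * (chn bs bt σ n : ℝ)) ^ (K + 1) := by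
    intro n e1 e2
    have h1 := iso_pow hk (fun x : Bx (K + 1) m => σ (n, x)) 1 (by
      rw [hcardm n, min_comm]; exact h1n n e1 e2)
    rw [hcardm n, min_comm, Nat.add_sub_cancel] at h1
    exact h1
  have hcmp : ∀ (r : ℝ), (r = 1 ∨ r = -1) → ∀ u v, p ≤ u → u < v → v ≤ q →
      κ2 * (∑ n ∈ Ico u v, ((if u < n then (chn bs bt σ n : ℝ) else 0) + hor σ n)) ≤
        dev σ r u + dev σ r v := by
    intro r hr u v e1 e2 e3
    have e4 := cmp h hb0 hb1 (h1 := u) (h2 := v) (fun n hn c => hJ n (by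
      rw [Finset.mem_Ico] at hn ⊢; omega) c) e2 (by omega) (by omega) hr
    rw [hκ2, div_mul_eq_mul_div, div_le_iff₀ (by positivity)]
    linarith
  have ht : ∀ (r : ℝ), (r = 1 ∨ r = -1) → ∀ u v, p ≤ u → u < v → v ≤ q →
      κ2 * ∑ n ∈ Ioo u v, (chn bs bt σ n : ℝ) ≤ dev σ r u + dev σ r v := by
    intro r hr u v e1 e2 e3
    refine le_trans ?_ (hcmp r hr u v e1 e2 e3)
    have f2 : ∑ n ∈ Ioo u v, (chn bs bt σ n : ℝ) ≤
        ∑ n ∈ Ico u v, ((if u < n then (chn bs bt σ n : ℝ) else 0) + hor σ n) := by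
      rw [← Finset.sum_filter_add_sum_filter_not (Ico u v) (fun n => u < n)]
      have f3 : (Ico u v).filter (fun n => u < n) = Ioo u v := by
        ext n
        simp only [Finset.mem_filter, Finset.mem_Ico, Finset.mem_Ioo]
        omega
      rw [f3]
      have f4 : ∑ n ∈ Ioo u v, (chn bs bt σ n : ℝ) ≤
          ∑ n ∈ Ioo u v, ((if u < n then (chn bs bt σ n : ℝ) else 0) + hor σ n) := by
        refine Finset.sum_le_sum fun n hn => ?_
        rw [Finset.mem_Ioo] at hn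
        rw [if_pos hn.1]
        have : (0 : ℝ) ≤ hor σ n := Nat.cast_nonneg _
        linarith
      have f5 : 0 ≤ ∑ n ∈ (Ico u v).filter (fun n => ¬ u < n),
          ((if u < n then (chn bs bt σ n : ℝ) else 0) + hor σ n) :=
        Finset.sum_nonneg fun n _ => by positivity
      linarith
    exact mul_le_mul_of_nonneg_left f2 hκ2p.le
  have hs : ∀ (r : ℝ), (r = 1 ∨ r = -1) → ∀ u v, p ≤ u → u < v → v ≤ q →
      κ * ∑ n ∈ Ioo u v, ((min (dev σ 1 n) (dev σ (-1) n) : ℕ) : ℝ) ≤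
        dev σ r u + dev σ r v := by
    intro r hr u v e1 e2 e3
    refine le_trans ?_ (ht r hr u v e1 e2 e3)
    have f1 : ∑ n ∈ Ioo u v, ((min (dev σ 1 n) (dev σ (-1) n) : ℕ) : ℝ) ≤
        2 * (2 * m + 1) * ∑ n ∈ Ioo u v, (chn bs bt σ n : ℝ) := by
      rw [Finset.mul_sum]
      refine Finset.sum_le_sum fun n _ => ?_
      exact_mod_cast hmin n
    calc κ * ∑ n ∈ Ioo u v, ((min (dev σ 1 n) (dev σ (-1) n) : ℕ) : ℝ)
        ≤ κ * (2 * (2 * m + 1) * ∑ n ∈ Ioo u v, (chn bs bt σ n : ℝ)) :=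
          mul_le_mul_of_nonneg_left f1 hκp.le
      _ = κ2 * ∑ n ∈ Ioo u v, (chn bs bt σ n : ℝ) := by rw [← hκκ]; ring
  have hv : ∀ (r : ℝ), (r = 1 ∨ r = -1) → ∀ u n v, p ≤ u → u ≤ n → n ≤ v → v ≤ q → u < v →
      κ2 * ((dev σ r n : ℝ) - dev σ r u) ≤ dev σ r u + dev σ r v := by
    intro r hr u n v e1 e2 e3 e4 e5
    refine le_trans ?_ (hcmp r hr u v e1 e5 e4)
    apply mul_le_mul_of_nonneg_left _ hκ2p.le
    have f1 := dev_le σ r e2
    have f2 : ∑ l ∈ Ico u n, (hor σ l : ℝ) ≤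
        ∑ n ∈ Ico u v, ((if u < n then (chn bs bt σ n : ℝ) else 0) + hor σ n) := by
      refine (Finset.sum_le_sum_of_subset_of_nonneg (Finset.Ico_subset_Ico le_rfl e3)
        fun _ _ _ => Nat.cast_nonneg _).trans (Finset.sum_le_sum fun l _ => ?_)
      have : (0 : ℝ) ≤ if u < l then (chn bs bt σ l : ℝ) else 0 := by positivity
      linarith
    linarith
  have hcc : cst (K + 1) b0 b1 * (((K : ℝ) + 1) * 2 ^ (K + 1) * (2 * ((K + 1 : ℕ) : ℝ) + 1)) ≤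
      κ2 := by
    refine le_of_eq ?_
    rw [hκ2]
    unfold cst
    push_cast
    field_simp
  have hfin := growth2 (Vc := (((2 * m + 1) ^ (K + 1) : ℕ) : ℝ)) (κ := κ) (κ2 := κ2) (ε := ε)
    (by positivity) hκp hκ2p (half_lt hb0 hb1) hε
    (bp := fun n => (dev σ 1 n : ℝ)) (bm := fun n => (dev σ (-1) n : ℝ))
    (a := fun n => ((min (dev σ 1 n) (dev σ (-1) n) : ℕ) : ℝ))
    (d := fun n => (chn bs bt σ n : ℝ)) (p := p) (q := q)
    (fun n => by exact_mod_cast hsumN n) (fun n => Nat.cast_nonneg _) (fun n => Nat.cast_nonneg _)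
    (fun n => by push_cast; rfl) (fun n e1 e2 => by exact_mod_cast h1n n e1 e2)
    (hs 1 (Or.inl rfl)) (ht 1 (Or.inl rfl)) (ht (-1) (Or.inr rfl))
    (hv 1 (Or.inl rfl)) (hv (-1) (Or.inr rfl))
    (fun n => Nat.cast_nonneg _) (K := K) (G := 2 * ((K + 1 : ℕ) : ℝ) + 1)
    (c := cst (K + 1) b0 b1) (by positivity) (cst_pos hk hb0 hb1) (cst_le hk hb0 hb1) hcc
    hdn w0 T hw0 hT
  omega

/-- In a locally optimal configuration the column of a pinning block is constant. -/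
theorem pinned3 {k m : ℕ} (hk : 1 ≤ k) {c N : ℝ} {L : ℕ} (hc : 0 < c) (hcN : c < N)
    {ε : ℝ} (hε : ε * (2 + c / (2 * N)) ≤ c / (2 * N) / 4) (w0 T : ℕ)
    (hw0 : 2 < kap c N m * ε * w0)
    (hT : 2 * (((2 * m + 1) ^ k : ℕ) : ℝ) < c / (2 * N) * (cst k c N * (T + 1)) ^ k)
    (hlen : 3 * w0 + 4 * T + 10 < L)
    {J : ℤ × (Bx k m ⊕ Bi k m) → ℝ} {z : ℤ} (h : Tr c N L J z) {σ : ℤ × Bx k m → ℝ}
    (hσ : GrOn (bs : Bi k m → Bx k m) bt J σ (z - L) (z + L + 1)) (x y : Bx k m) :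
    σ (z, x) = σ (z, y) := by
  obtain ⟨p, hp1, hp2, hpu⟩ := exists_uniform3 hk hσ hc hcN (p := z - L) (q := z)
    (fun n hn b => h.high (by rw [Finset.mem_Ico] at hn; omega)
      (by rw [Finset.mem_Ico] at hn; omega) (by rw [Finset.mem_Ico] at hn; omega) b)
    le_rfl (by omega) hε w0 T hw0 hT (by omega)
  obtain ⟨q, hq1, hq2, hqu⟩ := exists_uniform3 hk hσ hc hcN (p := z + 1) (q := z + 1 + L)
    (fun n hn b => h.high (by rw [Finset.mem_Ico] at hn; omega)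
      (by rw [Finset.mem_Ico] at hn; omega) (by rw [Finset.mem_Ico] at hn; omega) b)
    (by omega) (by omega) hε w0 T hw0 hT (by omega)
  have hu := uniform_of_between hσ (p := p) (z := z) (q := q) hp2 (by omega) (by omega)
    (by omega)
    (u := σ (p, x)) (w := σ (q, x)) (fun y => hpu y x) (fun y => hqu y x)
    (fun n hn b => h.pos hc (by rw [Finset.mem_Ico] at hn; omega)
      (by rw [Finset.mem_Ico] at hn; omega) b)
    (fun n hn hnz y => (h.low y).2.trans (h.high (by rw [Finset.mem_Ico] at hn; omega)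
      (by rw [Finset.mem_Ico] at hn; omega) hnz (Sum.inl y)).1)
  rw [hu x, hu y]

end Run7.h654.EACut
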