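import Pool.Agent.Run7.h654.EACut.NumP

/-!
# Pinned columns on horns, for all laws
-/

set_option autoImplicit false

open Finset MeasureTheory ProbabilityTheory Pool.Agent.TH761.EA Pool.Agent.TH761.EB

namespace Run7.h654.EACut

/-- long stretches of constant width -/
def LongP (k : ℕ) (w : ℕ → ℕ) : Prop :=
  ∀ (C : ℝ) (n0 : ℕ), ∃ a : ℕ, n0 ≤ a ∧ ∀ i : ℕ, a ≤ i →
    (i : ℝ) ≤ a + Real.exp (C * phiP k (w a)) → w i = w a

variable (μ : Measure ℝ) [IsProbabilityMeasure μ]

theorem pinsP {k : ℕ} (hk : 1 ≤ k) {w : ℕ → ℕ} (hw : LongP k w) {c N : ℝ} (hc : 0 < c) (hcN : c < N)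
    (h0 : 0 < μ (Set.Ioo 0 c)) (h1 : 0 < μ (Set.Ioo c N)) :
    ∀ᵐ J ∂(Measure.infinitePi fun _ : (Fin (k + 1) → ℤ) × Fin (k + 1) => μ),
      ∀ n0 : ℕ, ∃ z : ℤ, (n0 : ℤ) ≤ z ∧ ∃ m L : ℕ,
        SuffP k c N m L ∧
        (∀ n, z - L ≤ n → n ≤ z + L + 1 → 0 ≤ n ∧ w n.toNat = m) ∧
        Tr c N L (fun e : ℤ × (Bx k m ⊕ Bi k m) => J (ph e)) z := by
  rw [ae_all_iff]
  intro n0
  set P := Measure.infinitePi fun _ : (Fin (k + 1) → ℤ) × Fin (k + 1) => μ with hP
  set δ : ℝ := min (μ (Set.Ioo 0 c)).toReal (μ (Set.Ioo c N)).toReal with hδd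
  have hδ : 0 < δ := lt_min (ENNReal.toReal_pos h0.ne' (measure_ne_top _ _))
    (ENNReal.toReal_pos h1.ne' (measure_ne_top _ _))
  have hδ1 : δ ≤ 1 := by
    refine (min_le_left _ _).trans ?_
    have := ENNReal.toReal_mono (by simp) (prob_le_one (μ := μ) (s := Set.Ioo 0 c))
    simpa using this
  have g0 : ENNReal.ofReal δ ≤ μ (Set.Ioo 0 c) := by
    rw [← ENNReal.ofReal_toReal (measure_ne_top μ (Set.Ioo 0 c))]
    exact ENNReal.ofReal_le_ofReal (min_le_left _ _)
  have g1 : ENNReal.ofReal δ ≤ μ (Set.Ioo c N) := by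
    rw [← ENNReal.ofReal_toReal (measure_ne_top μ (Set.Ioo c N))]
    exact ENNReal.ofReal_le_ofReal (min_le_right _ _)
  rw [ae_iff]
  set Bad := {J : (Fin (k + 1) → ℤ) × Fin (k + 1) → ℝ | ¬ ∃ z : ℤ, (n0 : ℤ) ≤ z ∧ ∃ m L : ℕ,
        SuffP k c N m L ∧
        (∀ n, z - L ≤ n → n ≤ z + L + 1 → 0 ≤ n ∧ w n.toNat = m) ∧
        Tr c N L (fun e : ℤ × (Bx k m ⊕ Bi k m) => J (ph e)) z} with hBad
  have hbound : ∀ t : ℕ, P Bad ≤ ENNReal.ofReal (Real.exp (-(t : ℝ))) := by
    intro t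
    obtain ⟨C, hC⟩ := numericP hk hc hcN hδ hδ1 t
    obtain ⟨a, ha, hst⟩ := hw C n0
    obtain ⟨L, M, hL, ht, hlen⟩ := hC (w a)
    set m := w a with hm
    set κ : ℕ → ℤ := fun j => ((a / (2 * L + 2) : ℕ) : ℤ) + 2 + j with hκ
    have hκi : Function.Injective κ := by
      intro i j h
      simp only [hκ] at h
      omega
    have hnone := none_le (V := Bx k m) (I := Bi k m) μ (c := c) (N := N) L κ hκi
      (pow_nonneg hδ.le _) (fun z => tr_ge μ hδ.le g0 g1 L z) M
    refine le_trans ?_ (hnone.trans ?_)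
    · rw [← ph_law μ k m, Measure.map_apply (by fun_prop)
        (Finset.measurableSet_biInter _ fun j _ => (Tr_meas c N L _).compl)]
      refine measure_mono ?_
      intro J hJ
      simp only [Set.mem_preimage, Set.mem_iInter, Set.mem_compl_iff, Set.mem_ofPred_eq,
        Finset.mem_range]
      intro j hj hT
      apply hJ
      set q : ℕ := 2 * L + 2 with hq
      have hqp : 0 < q := by omega
      have d1 : a / q * q ≤ a := Nat.div_mul_le_self a q
      have d2 : a < a / q * q + q := by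
        have := Nat.lt_div_mul_add hqp (a := a)
        exact this
      have hz : κ j * (2 * (L : ℤ) + 2) = ((a / q * q + (2 + j) * q : ℕ) : ℤ) := by
        simp only [hκ, hq]; push_cast; ring
      have hjM : (2 + j) * q + q ≤ (M + 2) * q := by
        have : (2 + j) * q + q = (j + 3) * q := by ring
        rw [this]
        exact Nat.mul_le_mul_right _ (by omega)
      have hj2 : 2 * q ≤ (2 + j) * q := Nat.mul_le_mul_right _ (by omega)
      rw [hz] at hT
      refine ⟨_, ?_, m, L, hL, ?_, hT⟩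
      · have : n0 ≤ a / q * q + (2 + j) * q := by omega
        exact_mod_cast this
      · intro n hn1 hn2
        have hn0 : (a : ℤ) ≤ n := by omega
        refine ⟨by omega, ?_⟩
        have hna : a ≤ n.toNat := by omega
        have hnb : n.toNat ≤ a + (M + 2) * q := by omega
        apply hst _ hna
        have hnb' : (n.toNat : ℝ) ≤ a + (M + 2) * q := by exact_mod_cast hnb
        have hq' : (q : ℝ) = 2 * L + 2 := by rw [hq]; push_cast; ring
        rw [hq'] at hnb'
        linarith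
    · apply ENNReal.ofReal_le_ofReal
      apply Real.exp_le_exp.2
      linarith
  have hlim : Filter.Tendsto (fun t : ℕ => ENNReal.ofReal (Real.exp (-(t : ℝ)))) Filter.atTop
      (nhds 0) := by
    have h2 : Filter.Tendsto (fun t : ℕ => Real.exp (-(t : ℝ))) Filter.atTop (nhds 0) :=
      Real.tendsto_exp_neg_atTop_nhds_zero.comp tendsto_natCast_atTop_atTop
    have h3 := ENNReal.tendsto_ofReal h2
    rwa [ENNReal.ofReal_zero] at h3
  exact le_antisymm (ge_of_tendsto' hlim hbound) bot_le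


lemma phiP_mono (k : ℕ) {m m' : ℕ} (h : m ≤ m') : phiP k m ≤ phiP k m' := by
  unfold phiP
  have h1 : (m : ℝ) ≤ m' := by exact_mod_cast h
  exact pow_le_pow_left₀ (by positivity) (by linarith) _

lemma phiP_ge (k m : ℕ) : (m : ℝ) + 1 ≤ phiP k m := by
  unfold phiP
  have h0 : (0 : ℝ) ≤ m := Nat.cast_nonneg m
  exact le_self_pow₀ (by linarith) (by omega)

/-- `phiP k m = O(m ^ (k + 1) + 1)` -/
lemma phiP_bound (k : ℕ) : ∃ K : ℝ, 0 < K ∧ ∀ m : ℕ,
    phiP k m ≤ K * ((m : ℝ) ^ (k + 1) + 1) := by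
  refine ⟨2 ^ (k + 1), by positivity, fun m => ?_⟩
  unfold phiP
  set M : ℝ := max (m : ℝ) 1 with hM
  have hM1 : 1 ≤ M := le_max_right _ _
  have hMm : (m : ℝ) ≤ M := le_max_left _ _
  have hm0 : (0 : ℝ) ≤ m := Nat.cast_nonneg m
  have hx : (m : ℝ) + 1 ≤ 2 * M := by linarith
  have h1 : ((m : ℝ) + 1) ^ (k + 1) ≤ (2 * M) ^ (k + 1) := pow_le_pow_left₀ (by positivity) hx _
  have h2 : M ^ (k + 1) ≤ (m : ℝ) ^ (k + 1) + 1 := by
    rcases le_total (m : ℝ) 1 with h | h
    · have : M = 1 := max_eq_right h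
      rw [this, one_pow]
      have : 0 ≤ (m : ℝ) ^ (k + 1) := by positivity
      linarith
    · have : M = m := max_eq_left h
      rw [this]
      linarith
  rw [mul_pow] at h1
  exact h1.trans (mul_le_mul_of_nonneg_left h2 (by positivity))

theorem longP_of_growth {k : ℕ} {w : ℕ → ℕ} (hw : Monotone w)
    (hlog : Filter.Tendsto (fun n : ℕ => (w n : ℝ) ^ (k + 1) / Real.log n)
      Filter.atTop (nhds 0)) : LongP k w := by
  classical
  intro C0 n0
  obtain ⟨K, hK, hKb⟩ := phiP_bound k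
  set C : ℝ := max C0 1 with hC
  have hC1 : 1 ≤ C := le_max_right _ _
  have hC0 : C0 ≤ C := le_max_left _ _
  set B : ℝ := C * K with hB
  have hBp : 0 < B := by positivity
  have h1 : ∀ᶠ n : ℕ in Filter.atTop,
      (w n : ℝ) ^ (k + 1) / Real.log n < 1 / (16 * B) :=
    hlog.eventually_lt_const (by positivity)
  have h2 : ∀ᶠ n : ℕ in Filter.atTop, 8 * B ≤ Real.log n :=
    (Real.tendsto_log_atTop.comp tendsto_natCast_atTop_atTop).eventually_ge_atTop _
  obtain ⟨n1, hn1⟩ := Filter.eventually_atTop.1 (h1.and h2)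
  set n : ℕ := max (max n0 n1) 5 with hn
  have hnn0 : n0 ≤ n := (le_max_left _ _).trans (le_max_left _ _)
  have hnn1 : n1 ≤ n := (le_max_right _ _).trans (le_max_left _ _)
  have hn5 : 5 ≤ n := le_max_right _ _
  have hn5' : (5 : ℝ) ≤ n := by exact_mod_cast hn5
  set y : ℝ := Real.log n with hy
  have hyB : 8 * B ≤ y := (hn1 n hnn1).2
  have hyp : 0 < y := by linarith
  have hexpy : Real.exp y = n := Real.exp_log (by linarith)
  have h2n := (hn1 (2 * n) (by omega)).1
  have hlog2 : Real.log ((2 * n : ℕ) : ℝ) ≤ 2 * y := by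
    push_cast
    rw [Real.log_mul (by norm_num) (by linarith)]
    have : Real.log 2 ≤ y := Real.log_le_log (by norm_num) (by linarith)
    linarith
  have hlog2p : 0 < Real.log ((2 * n : ℕ) : ℝ) := by
    apply Real.log_pos
    push_cast; linarith
  rw [div_lt_iff₀ hlog2p] at h2n
  have hkey : C * phiP k (w (2 * n)) ≤ y / 4 := by
    have e2 : C * phiP k (w (2 * n)) ≤
        B * ((w (2 * n) : ℝ) ^ (k + 1) + 1) := by
      rw [hB, mul_assoc]
      exact mul_le_mul_of_nonneg_left (hKb _) (by linarith)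
    have e3 : B * ((w (2 * n) : ℝ) ^ (k + 1)) ≤
        B * (1 / (16 * B) * (2 * y)) := by
      apply mul_le_mul_of_nonneg_left _ hBp.le
      refine h2n.le.trans ?_
      exact mul_le_mul_of_nonneg_left hlog2 (by positivity)
    have e4 : B * (1 / (16 * B) * (2 * y)) = y / 8 := by
      field_simp
      ring
    rw [e4] at e3
    rw [mul_add, mul_one] at e2
    linarith
  set W : ℝ := (w (2 * n) : ℝ) with hW
  have hW0 : 0 ≤ W := Nat.cast_nonneg _
  have hWphi : W + 1 ≤ phiP k (w (2 * n)) := phiP_ge k _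
  have hphip : 0 ≤ phiP k (w (2 * n)) := by linarith
  have hWy : W + 1 ≤ Real.exp (y / 4) := by
    have e1 : phiP k (w (2 * n)) ≤ C * phiP k (w (2 * n)) := le_mul_of_one_le_left hphip hC1
    linarith [Real.add_one_le_exp (y / 4)]
  set b : ℕ := ⌈Real.exp (y / 4)⌉₊ with hb
  have hb1 : Real.exp (y / 4) ≤ b := Nat.le_ceil _
  have hb2 : (b : ℝ) < Real.exp (y / 4) + 1 := Nat.ceil_lt_add_one (Real.exp_pos _).le
  have hcount : (w (2 * n) + 1) * b < n := by
    have e0 : 1 ≤ Real.exp (y / 4) := Real.one_le_exp (by positivity)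
    have e1 : (W + 1) * b ≤ Real.exp (y / 4) * (2 * Real.exp (y / 4)) :=
      mul_le_mul hWy (by linarith) (Nat.cast_nonneg _) (Real.exp_pos _).le
    have e2 : Real.exp (y / 4) * Real.exp (y / 4) = Real.exp (y / 2) := by
      rw [← Real.exp_add]; congr 1; ring
    have e3 : Real.exp (y / 2) * Real.exp (y / 2) = n := by
      rw [← Real.exp_add, ← hexpy]; congr 1; ring
    have e4 : 2 < Real.exp (y / 2) := by
      by_contra hc
      push Not at hc
      have : Real.exp (y / 2) * Real.exp (y / 2) ≤ 2 * 2 :=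
        mul_le_mul hc hc (Real.exp_pos _).le (by norm_num)
      linarith
    have e5 : (W + 1) * b < n := by nlinarith [Real.exp_pos (y / 2)]
    have e6 : (((w (2 * n) + 1) * b : ℕ) : ℝ) < n := by push_cast; exact e5
    exact_mod_cast e6
  obtain ⟨m, hm, hcard⟩ := Finset.exists_lt_card_fiber_of_mul_lt_card_of_maps_to
    (s := Finset.Ico n (2 * n)) (t := Finset.range (w (2 * n) + 1)) (f := w) (n := b)
    (fun i hi => Finset.mem_range.2 (Nat.lt_succ_of_le (hw (Finset.mem_Ico.1 hi).2.le)))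
    (by rw [Finset.card_range, Nat.card_Ico]; omega)
  set F := (Finset.Ico n (2 * n)).filter (fun i => w i = m) with hF
  have hFne : F.Nonempty := Finset.card_pos.1 (by omega)
  set a := F.min' hFne with ha
  have haF : a ∈ F := Finset.min'_mem _ _
  have haF' := Finset.mem_filter.1 haF
  have haI := Finset.mem_Ico.1 haF'.1
  obtain ⟨j, hjF, hj⟩ : ∃ j ∈ F, a + b ≤ j := by
    by_contra hcon
    push Not at hcon
    have hsub : F ⊆ Finset.Ico a (a + b) := fun i hi =>
      Finset.mem_Ico.2 ⟨Finset.min'_le _ _ hi, hcon i hi⟩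
    have := Finset.card_le_card hsub
    rw [Nat.card_Ico] at this
    omega
  have hjF' := (Finset.mem_filter.1 hjF).2
  refine ⟨a, by omega, fun i hi hi2 => ?_⟩
  rw [haF'.2] at hi2 ⊢
  have hexp : Real.exp (C0 * phiP k m) ≤ b := by
    refine le_trans (Real.exp_le_exp.2 ?_) hb1
    have hmn : m ≤ w (2 * n) := by rw [← haF'.2]; exact hw haI.2.le
    have hm0 : (0 : ℝ) ≤ m := Nat.cast_nonneg m
    have hpm : 0 ≤ phiP k m := by linarith [phiP_ge k m]
    have e1 : C0 * phiP k m ≤ C * phiP k m := mul_le_mul_of_nonneg_right hC0 hpm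
    have e2 : C * phiP k m ≤ C * phiP k (w (2 * n)) :=
      mul_le_mul_of_nonneg_left (phiP_mono k hmn) (by linarith)
    linarith
  have hij : i ≤ j := by
    have : (i : ℝ) ≤ a + b := by linarith
    have : i ≤ a + b := by exact_mod_cast this
    omega
  have e1 := hw hi
  have e2 := hw hij
  rw [haF'.2] at e1
  rw [hjF'] at e2
  omega

/-- Short pinning blocks pin the columns of ground states. -/
theorem pin_of_trP {k : ℕ} (hk : 1 ≤ k) {w : ℕ → ℕ} {m : ℕ} {J : (Fin (k + 1) → ℤ) × Fin (k + 1) → ℝ}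
    {c N : ℝ} {L : ℕ} (hc : 0 < c) (hcN : c < N) (hS : SuffP k c N m L)
    {z : ℤ} (hw : ∀ n, z - L ≤ n → n ≤ z + L + 1 → 0 ≤ n ∧ w n.toNat = m)
    (hT : Tr c N L (fun e : ℤ × (Bx k m ⊕ Bi k m) => J (ph e)) z)
    {ρ : (Fin (k + 1) → ℤ) → ℝ} (hρ : GS aa bb (horn k w) J ρ) {v v' : Fin (k + 1) → ℤ}
    (hv : v ∈ horn k w) (hv' : v' ∈ horn k w) (h0 : v 0 = z) (h0' : v' 0 = z) : ρ v = ρ v' := by
  obtain ⟨ε, w0, T, hε, hw0, hTT, hlen⟩ := hS
  have h1 := pinned3 hk hc hcN hε w0 T hw0 hTT hlen hT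
    (grOn hρ hw) (pr m v) (pr m v')
  have h2 : z - (L : ℤ) ≤ z ∧ z ≤ z + L + 1 := by omega
  simp only [h2, and_self, if_true] at h1
  have h3 := (hw z h2.1 h2.2).2
  rw [← h0] at h3
  have h4 := horn_pt hv h3
  rw [h0] at h4
  rw [h0, ← h0'] at h3
  have h5 := horn_pt hv' h3
  rw [h0'] at h5
  rw [h4, h5] at h1
  exact h1

end Run7.h654.EACut
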