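import Pool.Agent.Run7.h654.EACut.Det
import Pool.Agent.Run7.h654.EACut.Exist

/-!
# Regions of `ℤ^d` with weak cuts
-/

set_option autoImplicit false

open Finset MeasureTheory ProbabilityTheory Pool.Agent.TH761.EB

namespace Run7.h654.EACut

variable {d : ℕ}

/-- first end of a bond -/
def a1 (e : (Fin d → ℤ) × Fin d) : Fin d → ℤ := e.1

/-- second end of a bond -/
def b1 (e : (Fin d → ℤ) × Fin d) : Fin d → ℤ := e.1 + Pi.single e.2 (1 : ℤ)

lemma fib1 (x : Fin d → ℤ) :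
    {e : (Fin d → ℤ) × Fin d | a1 e = x ∨ b1 e = x}.Finite := by
  classical
  refine (Finset.finite_toSet (((Finset.univ : Finset (Fin d)).image fun i => (x, i)) ∪
    ((Finset.univ : Finset (Fin d)).image fun i => (x - Pi.single i 1, i)))).subset ?_
  rintro ⟨v, i⟩ (h | h)
  · rw [Finset.mem_coe, Finset.mem_union, Finset.mem_image]
    left
    exact ⟨i, Finset.mem_univ _, by rw [← h]; rfl⟩
  · rw [Finset.mem_coe, Finset.mem_union, Finset.mem_image, Finset.mem_image]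
    right
    refine ⟨i, Finset.mem_univ _, ?_⟩
    rw [← h]
    simp [b1]

/-- connected regions -/
def Con (R : Set (Fin d → ℤ)) : Prop :=
  ∀ D ⊆ R, D.Nonempty → D ≠ R → ∃ x ∈ D, ∃ y ∈ R \ D, ∃ i : Fin d,
    y = x + Pi.single i (1 : ℤ) ∨ x = y + Pi.single i (1 : ℤ)

/-- the cut around `Λ` in `R` -/
def cut (R Λ : Set (Fin d → ℤ)) : Set ((Fin d → ℤ) × Fin d) :=
  {e | e.1 ∈ R ∧ e.1 + (Pi.single e.2 (1 : ℤ) : Fin d → ℤ) ∈ R ∧
    ¬ (e.1 ∈ Λ ↔ e.1 + (Pi.single e.2 (1 : ℤ) : Fin d → ℤ) ∈ Λ)}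

lemma cut_eq (R : Set (Fin d → ℤ)) (Λ : Finset (Fin d → ℤ)) :
    cut R (Λ : Set (Fin d → ℤ)) = (bdy a1 b1 R fib1 Λ : Set ((Fin d → ℤ) × Fin d)) := by
  ext e
  rw [Finset.mem_coe, mem_bdy]
  simp only [cut, Set.mem_ofPred_eq, Finset.mem_coe, a1, b1]
  tauto

lemma cut_sum (R : Set (Fin d → ℤ)) (Λ : Finset (Fin d → ℤ)) (J : (Fin d → ℤ) × Fin d → ℝ) :
    ∑ᶠ e ∈ cut R (Λ : Set (Fin d → ℤ)), |J e| = Wt a1 b1 R fib1 Λ J := by
  rw [cut_eq, finsum_mem_coe_finset]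
  rfl

variable (μ : Measure ℝ) [IsProbabilityMeasure μ]

theorem region (hat : ∀ x, μ {x} = 0) {R : Set (Fin d → ℤ)} (hinf : R.Infinite) (hcon : Con R) :
    ∀ᵐ J ∂(Measure.infinitePi fun _ : (Fin d → ℤ) × Fin d => μ),
      (∀ A : Finset (Fin d → ℤ), (A : Set (Fin d → ℤ)) ⊆ R → ∀ δ : ℝ, 0 < δ →
        ∃ Λ : Finset (Fin d → ℤ), A ⊆ Λ ∧ (Λ : Set (Fin d → ℤ)) ⊆ R ∧
          ∑ᶠ e ∈ cut R (Λ : Set (Fin d → ℤ)), |J e| ≤ δ) →
      ∃ σ : (Fin d → ℤ) → ℝ, {ρ | GS a1 b1 R J ρ} = {σ, -σ} := by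
  classical
  filter_upwards [gen_ae μ hat ((Fin d → ℤ) × Fin d),
    not_bad (a := a1) (b := b1) (R := R) (hfib := fib1) μ hat] with J hg hb hcut
  have hcross : ∀ D : Set (Fin d → ℤ), D ⊆ R → D.Nonempty → D ≠ R →
      ∃ e : (Fin d → ℤ) × Fin d, (a1 e ∈ D ∧ b1 e ∈ R ∧ b1 e ∉ D) ∨
        (b1 e ∈ D ∧ a1 e ∈ R ∧ a1 e ∉ D) := by
    intro D h1 h2 h3
    obtain ⟨x, hx, y, hy, i, h | h⟩ := hcon D h1 h2 h3
    · refine ⟨(x, i), Or.inl ⟨hx, ?_, ?_⟩⟩
      · have : b1 (x, i) = y := h.symm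
        rw [this]; exact hy.1
      · have : b1 (x, i) = y := h.symm
        rw [this]; exact hy.2
    · refine ⟨(y, i), Or.inr ⟨?_, hy.1, hy.2⟩⟩
      have : b1 (y, i) = x := h.symm
      rw [this]; exact hx
  obtain ⟨σ, hσ⟩ := exists_gs2 (a := a1) (b := b1) (R := R) fib1 (fun D hD hDR =>
    hcross (D : Set (Fin d → ℤ)) hDR (by exact_mod_cast hD) (fun h => hinf (by
      rw [← h]; exact Finset.finite_toSet D))) hg
  have hcut' : ∀ A : Finset (Fin d → ℤ), (A : Set (Fin d → ℤ)) ⊆ R → ∀ δ : ℝ, 0 < δ →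
      ∃ Λ : Finset (Fin d → ℤ), A ⊆ Λ ∧ (Λ : Set (Fin d → ℤ)) ⊆ R ∧
        Wt a1 b1 R fib1 Λ J ≤ δ := by
    intro A hA δ hδ
    obtain ⟨Λ, h1, h2, h3⟩ := hcut A hA δ hδ
    refine ⟨Λ, h1, h2, ?_⟩
    rwa [cut_sum] at h3
  refine ⟨σ, ?_⟩
  ext ρ
  constructor
  · intro hρ
    obtain ⟨x0, hx0⟩ := hinf.nonempty
    -- the sign
    set r : ℝ := σ x0 * ρ x0 with hr
    have hr1 : r = 1 ∨ r = -1 := by
      rcases hσ.1.1 _ hx0 with h1 | h1 <;> rcases hρ.1.1 _ hx0 with h2 | h2 <;>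
        rw [hr, h1, h2] <;> norm_num
    set D : Set (Fin d → ℤ) := {x | x ∈ R ∧ ρ x = r * σ x} with hD
    have hDR : D = R := by
      by_contra hne
      obtain ⟨e, he⟩ := hcross D (fun x hx => hx.1) ⟨x0, hx0, by
        rw [hr]
        rcases hσ.1.1 _ hx0 with h1 | h1 <;> rw [h1] <;> ring⟩ hne
      have hag : ∀ e : (Fin d → ℤ) × Fin d, a1 e ∈ R → b1 e ∈ R →
          σ (a1 e) * σ (b1 e) = ρ (a1 e) * ρ (b1 e) := fun e h1 h2 =>
        agree_bonds hb hcut' hσ hρ h1 h2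
      rcases he with ⟨h1, h2, h3⟩ | ⟨h1, h2, h3⟩
      · apply h3
        refine ⟨h2, ?_⟩
        have h4 := hag e h1.1 h2
        have h5 := h1.2
        rw [h5] at h4
        rcases hσ.1.1 _ h1.1 with s1 | s1 <;> rcases hr1 with s2 | s2 <;> rw [s1, s2] at h4 <;>
          rw [s2] <;> linarith
      · apply h3
        refine ⟨h2, ?_⟩
        have h4 := hag e h2 h1.1
        have h5 := h1.2
        rw [h5] at h4
        rcases hσ.1.1 _ h1.1 with s1 | s1 <;> rcases hr1 with s2 | s2 <;> rw [s1, s2] at h4 <;>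
          rw [s2] <;> linarith
    have hall : ∀ x, ρ x = r * σ x := by
      intro x
      by_cases hx : x ∈ R
      · rw [← hDR] at hx; exact hx.2
      · rw [hρ.1.2 _ hx, hσ.1.2 _ hx, mul_zero]
    rcases hr1 with h | h
    · left; funext x; rw [hall x, h, one_mul]
    · right; funext x; rw [Pi.neg_apply, hall x, h]; ring
  · rintro (h | h)
    · rw [h]; exact hσ
    · rw [h]; exact hσ.neg

/-! ### Disjoint cuts -/

lemma pi_inter {E : Type} (B : ℕ → Finset E) (hB : ∀ m n, m ≠ n → Disjoint (B m) (B n))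
    (S : ℕ → Set ℝ) (hS : ∀ n, MeasurableSet (S n)) (s : Finset ℕ) :
    (Measure.infinitePi fun _ : E => μ) (⋂ n ∈ s, Set.pi (B n : Set E) fun _ => S n) =
      ∏ n ∈ s, (Measure.infinitePi fun _ : E => μ) (Set.pi (B n : Set E) fun _ => S n) := by
  classical
  have h1 : (⋂ n ∈ s, Set.pi (B n : Set E) fun _ => S n) =
      Set.pi ((s.biUnion B : Finset E) : Set E) fun e => {x | ∀ n ∈ s, e ∈ B n → x ∈ S n} := by
    ext J
    simp only [Set.mem_iInter, Set.mem_pi, Finset.mem_coe, Finset.mem_biUnion, Set.mem_ofPred_eq]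
    constructor
    · rintro h e - n hn he
      exact h n hn e he
    · intro h n hn e he
      exact h e ⟨n, hn, he⟩ n hn he
  have hm : ∀ e : E, MeasurableSet {x : ℝ | ∀ n ∈ s, e ∈ B n → x ∈ S n} := by
    intro e
    have : {x : ℝ | ∀ n ∈ s, e ∈ B n → x ∈ S n} = ⋂ n ∈ s, {x | e ∈ B n → x ∈ S n} := by
      ext x; simp
    rw [this]
    refine Finset.measurableSet_biInter _ fun n _ => ?_
    by_cases he : e ∈ B n
    · simpa [he] using hS n
    · simp [he]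
  rw [h1, Measure.infinitePi_pi _ (fun e _ => hm e), Finset.prod_biUnion
    (fun m _ n _ hmn => hB m n hmn)]
  refine Finset.prod_congr rfl fun n hn => ?_
  rw [Measure.infinitePi_pi _ (fun _ _ => hS n)]
  refine Finset.prod_congr rfl fun e he => ?_
  congr 1
  ext x
  simp only [Set.mem_ofPred_eq]
  constructor
  · intro h; exact h n hn he
  · intro h m _ hem
    have : m = n := by
      by_contra hne
      exact (Finset.disjoint_left.1 (hB m n hne)) hem he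
    rw [this]; exact h

theorem often_small {E : Type} (B : ℕ → Finset E) (hB : ∀ m n, m ≠ n → Disjoint (B m) (B n))
    (N : ℕ → ℕ) (hN : ∀ n, (B n).card ≤ N n) {δ : ℝ} (hδ : 0 < δ)
    (hsum : ∑' n, μ (Set.Icc (-(δ / N n)) (δ / N n)) ^ N n = ⊤) :
    ∀ᵐ J ∂(Measure.infinitePi fun _ : E => μ),
      ∃ᶠ n in Filter.atTop, ∑ e ∈ B n, |J e| ≤ δ := by
  classical
  set P := Measure.infinitePi fun _ : E => μ with hP
  set S : ℕ → Set ℝ := fun n => Set.Icc (-(δ / N n)) (δ / N n) with hS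
  set G : ℕ → Set (E → ℝ) := fun n => Set.pi (B n : Set E) fun _ => S n with hG
  have hSm : ∀ n, MeasurableSet (S n) := fun n => measurableSet_Icc
  have hGm : ∀ n, MeasurableSet (G n) := fun n =>
    MeasurableSet.pi (B n).countable_toSet fun _ _ => hSm n
  have hind : iIndepSet G P := by
    rw [iIndepSet_iff_meas_biInter hGm]
    intro s
    exact pi_inter μ B hB S hSm s
  have hval : ∀ n, P (G n) = μ (S n) ^ (B n).card := by
    intro n
    rw [hP, hG, Measure.infinitePi_pi _ (fun _ _ => hSm n), Finset.prod_const]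
  have htop : ∑' n, P (G n) = ⊤ := by
    rw [eq_top_iff, ← hsum]
    refine ENNReal.tsum_le_tsum fun n => ?_
    rw [hval]
    exact pow_le_pow_right_of_le_one' prob_le_one (hN n)
  have hlim := measure_limsup_eq_one hGm hind htop
  have hae : ∀ᵐ J ∂P, J ∈ Filter.limsup G Filter.atTop := by
    rw [ae_iff]
    have := (prob_compl_eq_zero_iff (μ := P) (MeasurableSet.measurableSet_limsup hGm)).2 hlim
    simpa [Set.compl_def] using this
  filter_upwards [hae] with J hJ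
  rw [Filter.mem_limsup_iff_frequently_mem] at hJ
  refine hJ.mono fun n hn => ?_
  have h1 : ∀ e ∈ B n, |J e| ≤ δ / N n := by
    intro e he
    have := hn e he
    exact abs_le.2 this
  calc ∑ e ∈ B n, |J e| ≤ ∑ _e ∈ B n, δ / N n := Finset.sum_le_sum h1
    _ = (B n).card * (δ / N n) := by rw [Finset.sum_const, nsmul_eq_mul]
    _ ≤ N n * (δ / N n) := by
        apply mul_le_mul_of_nonneg_right _ (by positivity)
        exact_mod_cast hN n
    _ ≤ δ := by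
        rcases Nat.eq_zero_or_pos (N n) with h | h
        · rw [h]; simp [hδ.le]
        · rw [mul_div_cancel₀]
          have : (0 : ℝ) < N n := by exact_mod_cast h
          exact this.ne'

theorem disjoint_cuts (hat : ∀ x, μ {x} = 0) {R : Set (Fin d → ℤ)} (hinf : R.Infinite)
    (hcon : Con R) (Λ : ℕ → Set (Fin d → ℤ)) (hfin : ∀ n, (Λ n).Finite) (hΛ : ∀ n, Λ n ⊆ R)
    (hex : ∀ x ∈ R, ∀ᶠ n in Filter.atTop, x ∈ Λ n)
    (hdis : ∀ m n, m ≠ n → Disjoint (cut R (Λ m)) (cut R (Λ n)))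
    (N : ℕ → ℕ) (hN : ∀ n, (cut R (Λ n)).ncard ≤ N n)
    (hsum : ∀ δ : ℝ, 0 < δ → ∑' n, μ (Set.Icc (-(δ / N n)) (δ / N n)) ^ N n = ⊤) :
    ∀ᵐ J ∂(Measure.infinitePi fun _ : (Fin d → ℤ) × Fin d => μ),
      ∃ σ : (Fin d → ℤ) → ℝ, {ρ | GS a1 b1 R J ρ} = {σ, -σ} := by
  classical
  set L : ℕ → Finset (Fin d → ℤ) := fun n => (hfin n).toFinset with hL
  have hLc : ∀ n, (L n : Set (Fin d → ℤ)) = Λ n := fun n => (hfin n).coe_toFinset
  set B : ℕ → Finset ((Fin d → ℤ) × Fin d) := fun n => bdy a1 b1 R fib1 (L n) with hBdef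
  have hBc : ∀ n, (B n : Set ((Fin d → ℤ) × Fin d)) = cut R (Λ n) := by
    intro n
    rw [hBdef, ← hLc n, cut_eq]
  have hB : ∀ m n, m ≠ n → Disjoint (B m) (B n) := by
    intro m n hmn
    rw [← Finset.disjoint_coe, hBc, hBc]
    exact hdis m n hmn
  have hNB : ∀ n, (B n).card ≤ N n := by
    intro n
    rw [← Set.ncard_coe_finset, hBc]
    exact hN n
  have hall : ∀ᵐ J ∂(Measure.infinitePi fun _ : (Fin d → ℤ) × Fin d => μ), ∀ m : ℕ,
      ∃ᶠ n in Filter.atTop, ∑ e ∈ B n, |J e| ≤ 1 / ((m : ℝ) + 1) := by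
    rw [ae_all_iff]
    intro m
    exact often_small μ B hB N hNB (by positivity) (hsum _ (by positivity))
  filter_upwards [hall, region μ hat hinf hcon] with J h1 h2
  apply h2
  intro A hA δ hδ
  obtain ⟨m, hm⟩ := exists_nat_one_div_lt hδ
  have hev : ∀ᶠ n in Filter.atTop, A ⊆ L n := by
    have : ∀ᶠ n in Filter.atTop, ∀ x ∈ A, x ∈ L n :=
      (Filter.eventually_all_finset A).2 fun x hx => by
        filter_upwards [hex x (hA hx)] with n hn
        rw [← Finset.mem_coe, hLc]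
        exact hn
    filter_upwards [this] with n hn
    exact hn
  obtain ⟨n, hn1, hn2⟩ := ((h1 m).and_eventually hev).exists
  refine ⟨L n, hn2, by rw [hLc]; exact hΛ n, ?_⟩
  rw [cut_sum]
  exact hn1.trans hm.le

end Run7.h654.EACut
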